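import Pool.Agent.W801.OW.Stm

/-! # The two descriptions of the dislocated cylinder, `2 k + 1` legs -/

set_option autoImplicit false

namespace Pool.Agent.W801.OW
open H974 H906.Cyl
open Pool.Agent.W801.OL (sec2 Lk2)
open Pool.Agent.W808.HB (HL)
open Pool.Agent.W801.OU (zp nrm Dg LZ RZ Zn)
open Pool.Agent.W801.OU.TISO (Ri)
open Pool.Agent.W808.KY (Hn En scy RY)

namespace TISY
open Pool.Agent.W801.OU.TISO (edz_sum dco_edz edz_eq mem_Zn upcol dncol nrm_pos nrm_k nrm_0 chr')

/-- links of the chart outside the holes -/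
theorem LZ_iff (Z : Set ℤ) (n k : ℕ) (G : Set Edg) (x y : ℤ × ℤ) : LZ Z (Hn n k) G x y ↔
    ∃ s d : ℤ, ¬ (d = -1 ∧ 1 ≤ s % (2 * n : ℕ) ∧ s % (2 * n : ℕ) < k) ∧ ¬ (d < 0 ∧ s + 1 ∈ Z) ∧
      ((Ri G s d ∧ x = nrm Z d s d ∧ y = nrm Z d (s + 1) (d + 1)) ∨
       (¬ Ri G s d ∧ x = nrm Z d s (d + 1) ∧ y = nrm Z d (s + 1) d)) := by
  unfold LZ
  constructor
  · rintro ⟨e, h0, h1, h2⟩
    refine ⟨e.1 + e.2.1, dco e, h0, h1, ?_⟩
    unfold Ri
    rw [edz_eq]
    rcases h2 with ⟨h3, h4⟩ | ⟨h3, h4⟩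
    · rcases h4 with h5 | h5
      · exact Or.inl ⟨by simp [h3, h5], rfl, rfl⟩
      · refine Or.inr ⟨?_, rfl, rfl⟩
        intro h6
        have := h6.1 h3
        omega
    · rcases h4 with h5 | h5
      · refine Or.inl ⟨?_, rfl, rfl⟩
        constructor
        · intro h6; exact absurd h6 h3
        · intro h6; omega
      · refine Or.inr ⟨?_, rfl, rfl⟩
        intro h6
        exact h3 (h6.2 (by omega))
  · rintro ⟨s, d, h0, h1, h2⟩
    have hm := Int.emod_two_eq_zero_or_one (s + d)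
    refine ⟨edz s d, ?_, ?_, ?_⟩
    · unfold Hn
      simp only [Set.mem_setOf_eq]
      rw [edz_sum, dco_edz]
      exact h0
    · unfold zp
      simp only [Set.mem_setOf_eq]
      rw [edz_sum, dco_edz]
      exact h1
    · by_cases h3 : edz s d ∈ G
      · left
        refine ⟨h3, ?_⟩
        rcases h2 with ⟨h4, rfl, rfl⟩ | ⟨h4, rfl, rfl⟩
        · have h5 := h4.1 h3
          have := Dg.rise (Z := Z) (c := 0) (e := edz s d) (by rw [edz_sum, dco_edz]; exact h5)
          rwa [edz_sum, dco_edz] at this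
        · have h5 : ¬ (s + d) % 2 = 0 := fun h => h4 (by simp [Ri, h3, h])
          have := Dg.fall (Z := Z) (c := 0) (e := edz s d) (by rw [edz_sum, dco_edz]; omega)
          rwa [edz_sum, dco_edz] at this
      · right
        refine ⟨h3, ?_⟩
        rcases h2 with ⟨h4, rfl, rfl⟩ | ⟨h4, rfl, rfl⟩
        · have h5 : ¬ (s + d) % 2 = 0 := fun h => h3 (h4.2 h)
          have := Dg.rise (Z := Z) (c := 1) (e := edz s d) (by rw [edz_sum, dco_edz]; omega)
          rwa [edz_sum, dco_edz] at this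
        · have h5 : (s + d) % 2 = 0 := by
            by_contra h
            exact h4 (by simp [Ri, h3, h])
          have := Dg.fall (Z := Z) (c := 1) (e := edz s d) (by rw [edz_sum, dco_edz]; omega)
          rwa [edz_sum, dco_edz] at this

/-- the squares different from the additional open squares -/
theorem Ri_union {n : ℕ} {G : Set Edg} {s d : ℤ} (h : ¬ (d = -1 ∧ s % (2 * n : ℕ) = 0)) :
    Ri (G ∪ En n) s d ↔ Ri G s d := by
  have h2 : edz s d ∉ En n := by
    unfold En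
    simp only [Set.mem_setOf_eq]
    rw [edz_sum, dco_edz]
    exact h
  unfold Ri
  simp only [Set.mem_union, h2, or_false]

/-- the additional open squares -/
theorem Ri_En {n : ℕ} {G : Set Edg} (s : ℤ) : ¬ Ri (G ∪ En n) (2 * n * s) (-1) := by
  have h2 : edz (2 * n * s) (-1) ∈ En n := by
    unfold En
    simp only [Set.mem_setOf_eq]
    rw [edz_sum, dco_edz]
    refine ⟨rfl, ?_⟩
    push_cast
    exact Int.mul_emod_right _ _
  unfold Ri
  intro h
  have h3 := h.1 (Or.inr h2)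
  have h4 : (2 * (n : ℤ) * s + -1) % 2 = (-1) % 2 := by
    rw [show 2 * (n : ℤ) * s + -1 = -1 + 2 * (n * s) by ring, Int.add_mul_emod_self_left]
  rw [h4] at h3
  exact absurd h3 (by decide)

/-- from the coins to the chart -/
def phi (n k : ℕ) (x : (ℤ × ℕ) × Bool) : ℤ × ℤ :=
  if x.2 = true then
    (if x.1.2 = 0 ∧ (x.1.1 - 1) % (2 * n - 1) + 1 < k then
      (x.1.1 + (x.1.1 - 1) / (2 * n - 1) + 1, -1)
    else (x.1.1 + (x.1.1 - 1) / (2 * n - 1), -x.1.2))
  else (x.1.1 - 1, x.1.2)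

/-- from the chart to the coins -/
def psi (n : ℕ) (x : ℤ × ℤ) : (ℤ × ℕ) × Bool :=
  if 0 ≤ x.2 then ((x.1 + 1, x.2.toNat), false) else ((x.1 - x.1 / (2 * n), (-x.2).toNat), true)

variable {n k : ℕ} {G : Set Edg} {ω ω' : ℤ × ℕ → Bool}

theorem mod_2n (s q : ℤ) (h0 : 0 ≤ q) (h1 : q < 2 * n) : (2 * n * s + q) % ((2 * n : ℕ) : ℤ) = q := by
  push_cast
  rw [show 2 * (n : ℤ) * s + q = q + (2 * n) * s by ring, Int.add_mul_emod_self_left]
  exact Int.emod_eq_of_lt h0 h1

theorem col_mod (s q : ℤ) (h0 : 1 ≤ q) (h1 : q < 2 * n) :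
    ((2 * n - 1) * s + q - 1) % (2 * (n : ℤ) - 1) = q - 1 := by
  rw [show (2 * (n : ℤ) - 1) * s + q - 1 = (q - 1) + (2 * n - 1) * s by ring,
    Int.add_mul_emod_self_left]
  exact Int.emod_eq_of_lt (by omega) (by omega)

/-- the glued points of the boundary -/
theorem glue' (hk : 1 ≤ k) (hn : 2 * k + 2 ≤ n) (s q : ℤ) (h0 : k ≤ q) (h1 : q < 2 * n) :
    Relation.EqvGen (Lk2 (k + 1) k (2 * n - (k + 1)) ω ω') ((2 * n * s + q + 1, 0), false)
      (((2 * n - 1) * s + q, 0), true) := by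
  refine Relation.EqvGen.rel _ _ ?_
  have h := Lk2.glue (p := k + 1) (r := k) (M := 2 * n - (k + 1)) (ω := ω) (ω' := ω') s
    (q - k).toNat (by omega)
  have e1 : s * ((k + 1 + (2 * n - (k + 1)) : ℕ) : ℤ) + ((k + 1 : ℕ) : ℤ) + ((q - k).toNat : ℤ) =
      2 * n * s + q + 1 := by
    rw [show (k + 1 + (2 * n - (k + 1)) : ℕ) = 2 * n by omega]
    have : ((q - k).toNat : ℤ) = q - k := by omega
    rw [this]; push_cast; ring
  have e2 : s * ((k + (2 * n - (k + 1)) : ℕ) : ℤ) + ((k : ℕ) : ℤ) + ((q - k).toNat : ℤ) =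
      (2 * n - 1) * s + q := by
    have e3 : ((k + (2 * n - (k + 1)) : ℕ) : ℤ) = 2 * n - 1 := by omega
    have : ((q - k).toNat : ℤ) = q - k := by omega
    rw [this, e3]; ring
  rw [e1, e2] at h
  exact h

theorem phi_up' (hn : 1 ≤ n) (s q : ℤ) (t : ℕ) (h0 : 1 ≤ q) (h1 : q < 2 * n)
    (h2 : k ≤ q ∨ 1 ≤ t) :
    phi n k (((2 * n - 1) * s + q, t), true) = (2 * n * s + q, -(t : ℤ)) := by
  unfold phi
  simp only [if_true]
  rw [col_mod s q h0 h1, if_neg (by omega), upcol hn s q h0 h1]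

/-- the points next to the slit -/
theorem phi_tip (hn : 1 ≤ n) (s q : ℤ) (h0 : 1 ≤ q) (h1 : q < k) (h2 : q < 2 * n) :
    phi n k (((2 * n - 1) * s + q, 0), true) = (2 * n * s + q + 1, -1) := by
  unfold phi
  simp only [if_true]
  rw [col_mod s q h0 h2, if_pos ⟨by trivial, by linarith⟩, upcol hn s q h0 h2]

/-- the image of a point of the upper half -/
theorem phi_up (hn : 1 ≤ n) (hk : k < 2 * n) {d : ℤ} (hd : d < 0) (s q : ℤ) (t : ℕ) (h0 : 0 ≤ q)
    (h1 : q < 2 * n) (h2 : k ≤ q ∨ 1 ≤ t ∨ q = 0) :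
    phi n k (((2 * n - 1) * s + q, t), true) = nrm (Zn n) d (2 * n * s + q) (-(t : ℤ)) := by
  rcases eq_or_lt_of_le h0 with h | h
  · subst h
    rw [nrm_0 hn hd, ← phi_up' (k := k) hn (s - 1) (2 * n - 1) t (by omega) (by omega) (by omega)]
    congr 3
    ring
  · rw [nrm_k s q _ (by omega) h1, phi_up' hn s q t (by omega) h1 (by omega)]

theorem phi_lo (j : ℤ) (t : ℕ) : phi n k ((j, t), false) = (j - 1, (t : ℤ)) := by
  unfold phi; simp

theorem psi_up' (hk : 1 ≤ k) (hn : 2 * k + 2 ≤ n) (s q : ℤ) (t : ℕ) (h0 : 1 ≤ q) (h1 : q < 2 * n)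
    (h2 : k ≤ q ∨ 1 ≤ t) :
    Relation.EqvGen (Lk2 (k + 1) k (2 * n - (k + 1)) ω ω') (psi n (2 * n * s + q, -(t : ℤ)))
      (((2 * n - 1) * s + q, t), true) := by
  rcases Nat.eq_zero_or_pos t with rfl | ht
  · have e : psi n (2 * n * s + q, -((0 : ℕ) : ℤ)) = ((2 * n * s + q + 1, 0), false) := by
      unfold psi; simp
    rw [e]
    exact glue' hk hn s q (by omega) h1
  · have e : psi n (2 * n * s + q, -(t : ℤ)) = (((2 * n - 1) * s + q, t), true) := by
      unfold psi
      rw [if_neg (by simp only; omega)]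
      simp only [neg_neg, Int.toNat_natCast]
      rw [dncol (by omega) s q (by omega) h1]
    rw [e]
    exact Relation.EqvGen.refl _

theorem psi_up (hk : 1 ≤ k) (hn : 2 * k + 2 ≤ n) {d : ℤ} (hd : d < 0) (s q : ℤ) (t : ℕ)
    (h0 : 0 ≤ q) (h1 : q < 2 * n) (h2 : k ≤ q ∨ 1 ≤ t ∨ q = 0) :
    Relation.EqvGen (Lk2 (k + 1) k (2 * n - (k + 1)) ω ω')
      (psi n (nrm (Zn n) d (2 * n * s + q) (-(t : ℤ)))) (((2 * n - 1) * s + q, t), true) := by
  rcases eq_or_lt_of_le h0 with h | h
  · subst h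
    rw [nrm_0 (by omega) hd]
    have h2 := psi_up' (ω := ω) (ω' := ω') hk hn (s - 1) (2 * n - 1) t (by omega) (by omega)
      (by omega)
    have e : (2 * (n : ℤ) - 1) * (s - 1) + (2 * n - 1) = (2 * n - 1) * s + 0 := by ring
    rw [e] at h2
    exact h2
  · rw [nrm_k s q _ (by omega) h1]
    exact psi_up' hk hn s q t (by omega) h1 (by omega)

theorem psi_lo (j : ℤ) (t : ℕ) : psi n (j, (t : ℤ)) = ((j + 1, t), false) := by
  unfold psi
  rw [if_pos (by simp)]
  simp

/-- points of the upper half: coordinates -/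
theorem upr (hk : 1 ≤ k) (hn : 2 * k + 2 ≤ n) (j : ℤ) : ∃ s q : ℤ, 0 ≤ q ∧ q < 2 * n - 1 ∧
    j = (2 * n - 1) * s + q ∧ j % ((k + (2 * n - (k + 1)) : ℕ) : ℤ) = q := by
  have e3 : ((k + (2 * n - (k + 1)) : ℕ) : ℤ) = 2 * n - 1 := by omega
  refine ⟨j / (2 * n - 1), j % (2 * n - 1), Int.emod_nonneg _ (by omega),
    Int.emod_lt_of_pos _ (by omega), ?_, by rw [e3]⟩
  have := Int.mul_ediv_add_emod j (2 * n - 1)
  linarith

/-- from the coins to the chart -/
theorem fwd (hk : 1 ≤ k) (hn : 2 * k + 2 ≤ n) (H : CmpY n k G ω ω') {x y : (ℤ × ℕ) × Bool}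
    (h : Relation.EqvGen (Lk2 (k + 1) k (2 * n - (k + 1)) ω ω') x y) :
    RY n k G (phi n k x) (phi n k y) := by
  refine Pool.Agent.H160R2.ML.TmoveL.eqv_map' (phi n k) ?_ h
  intro x y h
  have e2 : (k + 1 + (2 * n - (k + 1)) : ℕ) = 2 * n := by omega
  have hn1 : 1 ≤ n := by omega
  cases h with
  | low x y h =>
    cases h with
    | rise j t h =>
      refine Relation.EqvGen.rel _ _ ((LZ_iff _ _ _ _ _ _).2 ⟨j - 1, t, by omega, by omega,
        Or.inl ⟨?_, ?_, ?_⟩⟩)
      · rw [e2] at h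
        have := H.lo j t
        rw [h] at this
        rw [Ri_union (by omega)]
        simpa using this
      · rw [phi_lo, nrm_pos (by omega)]
      · rw [phi_lo, nrm_pos (by omega)]
        push_cast
        ring_nf
    | fall j t h =>
      refine Relation.EqvGen.symm _ _ (Relation.EqvGen.rel _ _
        ((LZ_iff _ _ _ _ _ _).2 ⟨j - 1, t, by omega, by omega, Or.inr ⟨?_, ?_, ?_⟩⟩))
      · rw [e2] at h
        rw [Ri_union (by omega)]
        exact (H.lo j t).1 h
      · rw [phi_lo, nrm_pos (by omega)]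
        push_cast
        rfl
      · rw [phi_lo, nrm_pos (by omega)]
        ring_nf
    | wire s i h => omega
  | upp x y h =>
    cases h with
    | rise j t h =>
      obtain ⟨s, q, h0, h1, rfl, hq⟩ := upr hk hn j
      rw [hq] at h
      by_cases htip : t = 0 ∧ 1 ≤ q ∧ q < k
      · -- the points next to the slit
        obtain ⟨rfl, h3, h4⟩ := htip
        have a1 := phi_up' (k := k) hn1 s (q + 1) (0 + 1) (by omega) (by omega) (by omega)
        rw [← add_assoc] at a1
        rw [phi_tip hn1 s q h3 h4 (by omega), a1]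
        have : (2 * (n : ℤ) * s + q + 1, (-1 : ℤ)) = (2 * n * s + (q + 1), -((0 + 1 : ℕ) : ℤ)) := by
          push_cast
          ring_nf
        rw [this]
        exact Relation.EqvGen.refl _
      refine Relation.EqvGen.rel _ _ ((LZ_iff _ _ _ _ _ _).2 ⟨2 * n * s + q, -t - 1, ?_, ?_,
        Or.inr ⟨?_, ?_, ?_⟩⟩)
      · rw [mod_2n s q h0 (by omega)]
        omega
      · rintro ⟨-, h2⟩
        rw [add_assoc, mem_Zn s (q + 1) (by omega) (by omega)] at h2
        omega
      · by_cases h5 : t = 0 ∧ q = 0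
        · obtain ⟨rfl, rfl⟩ := h5
          have := Ri_En (n := n) (G := G) s
          simpa using this
        · rw [Ri_union (by rw [mod_2n s q h0 (by omega)]; omega)]
          intro h2
          have := (H.up s q t h0 h1 (by omega)).2 h2
          rw [h] at this
          exact absurd this (by simp)
      · rw [phi_up hn1 (by omega) (d := -t - 1) (by omega) s q t h0 (by omega) (by omega)]
        ring_nf
      · rw [add_assoc, phi_up hn1 (by omega) (d := -t - 1) (by omega) s (q + 1) (t + 1) (by omega)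
          (by omega) (by omega)]
        push_cast
        ring_nf
    | fall j t h =>
      obtain ⟨s, q, h0, h1, rfl, hq⟩ := upr hk hn j
      rw [hq] at h
      have htip : ¬ (t = 0 ∧ q < k) := by
        rintro ⟨rfl, h3⟩
        rw [H.tip q h0 h3] at h
        exact absurd h (by simp)
      refine Relation.EqvGen.symm _ _ (Relation.EqvGen.rel _ _
        ((LZ_iff _ _ _ _ _ _).2 ⟨2 * n * s + q, -t - 1, ?_, ?_, Or.inl ⟨?_, ?_, ?_⟩⟩))
      · rw [mod_2n s q h0 (by omega)]
        omega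
      · rintro ⟨-, h2⟩
        rw [add_assoc, mem_Zn s (q + 1) (by omega) (by omega)] at h2
        omega
      · rw [Ri_union (by rw [mod_2n s q h0 (by omega)]; omega)]
        exact (H.up s q t h0 h1 (by omega)).1 h
      · rw [phi_up hn1 (by omega) (d := -t - 1) (by omega) s q (t + 1) h0 (by omega) (by omega)]
        push_cast
        ring_nf
      · rw [add_assoc, phi_up hn1 (by omega) (d := -t - 1) (by omega) s (q + 1) t (by omega)
          (by omega) (by omega)]
        ring_nf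
    | wire s i h => omega
  | glue s i h =>
    have e3 : ((k + (2 * n - (k + 1)) : ℕ) : ℤ) = 2 * n - 1 := by omega
    rw [e2, e3, phi_lo]
    have h4 := phi_up' (k := k) hn1 s (k + i) 0 (by omega) (by omega) (by omega)
    have e4 : s * (2 * (n : ℤ) - 1) + ((k : ℕ) : ℤ) + (i : ℤ) = (2 * n - 1) * s + (k + i) := by
      ring
    rw [e4, h4]
    have e5 : s * ((2 * n : ℕ) : ℤ) + ((k + 1 : ℕ) : ℤ) + (i : ℤ) - 1 = 2 * n * s + (k + i) := by
      push_cast; ring
    rw [e5]
    simp only [Nat.cast_zero, neg_zero]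
    exact Relation.EqvGen.refl _

/-- from the chart to the coins -/
theorem bwd (hk : 1 ≤ k) (hn : 2 * k + 2 ≤ n) (H : CmpY n k G ω ω') {x y : ℤ × ℤ}
    (h : RY n k G x y) :
    Relation.EqvGen (Lk2 (k + 1) k (2 * n - (k + 1)) ω ω') (psi n x) (psi n y) := by
  refine Pool.Agent.H160R2.ML.TmoveL.eqv_map' (psi n) ?_ h
  intro x y h
  rw [LZ_iff] at h
  obtain ⟨s', d, h00, h1, h2⟩ := h
  have e2 : (k + 1 + (2 * n - (k + 1)) : ℕ) = 2 * n := by omega
  have hn1 : 1 ≤ n := by omega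
  rcases lt_or_ge d 0 with hd | hd
  · -- the side of the zippers
    obtain ⟨s, q, h3, h4, rfl⟩ := chr' hn1 s'
    obtain ⟨t, rfl⟩ : ∃ t : ℕ, d = -t - 1 := ⟨(-d - 1).toNat, by omega⟩
    have h5 : q < 2 * n - 1 := by
      by_contra h6
      apply h1
      refine ⟨hd, ?_⟩
      have h7 : 2 * (n : ℤ) * s + q + 1 = 2 * n * (s + 1) + 0 := by
        have : q = 2 * n - 1 := by omega
        rw [this]; ring
      rw [h7, mem_Zn (s + 1) 0 le_rfl (by omega)]
    rw [mod_2n s q h3 h4] at h00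
    have hmod : ((2 * (n : ℤ) - 1) * s + q) % ((k + (2 * n - (k + 1)) : ℕ) : ℤ) = q := by
      have e3 : ((k + (2 * n - (k + 1)) : ℕ) : ℤ) = 2 * n - 1 := by omega
      rw [e3, show (2 * (n : ℤ) - 1) * s + q = q + (2 * n - 1) * s by ring,
        Int.add_mul_emod_self_left]
      exact Int.emod_eq_of_lt h3 h5
    -- the value of the coin
    have hval : (ω' (q, t) = true ↔ Ri (G ∪ En n) (2 * n * s + q) (-t - 1)) := by
      by_cases h6 : t = 0 ∧ q = 0
      · obtain ⟨rfl, rfl⟩ := h6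
        have a1 := Ri_En (n := n) (G := G) s
        have a2 := H.tip 0 le_rfl (by omega)
        rw [a2]
        simp only [Nat.cast_zero, neg_zero, zero_sub, add_zero]
        constructor
        · intro h; exact absurd h (by simp)
        · intro h; exact absurd h a1
      · rw [Ri_union (by rw [mod_2n s q h3 h4]; omega)]
        exact H.up s q t h3 h5 (by omega)
    rcases h2 with ⟨h6, rfl, rfl⟩ | ⟨h6, rfl, rfl⟩
    · -- rise: fall of the upper half
      have h7 := hval.2 h6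
      have h8 : ¬ (t = 0 ∧ q < k) := by
        rintro ⟨rfl, h9⟩
        rw [H.tip q h3 h9] at h7
        exact absurd h7 (by simp)
      have a1 := psi_up (ω := ω) (ω' := ω') hk hn hd s q (t + 1) h3 (by omega) (by omega)
      have a2 := psi_up (ω := ω) (ω' := ω') hk hn hd s (q + 1) t (by omega) (by omega) (by omega)
      have e4 : -((t + 1 : ℕ) : ℤ) = -t - 1 := by push_cast; ring
      have e5 : (-(t : ℤ) - 1 + 1) = -t := by ring
      rw [e4] at a1
      rw [← add_assoc] at a2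
      rw [e5]
      refine a1.trans _ _ _ (Relation.EqvGen.trans _ _ _ ?_ (a2.symm _ _))
      refine Relation.EqvGen.symm _ _ (Relation.EqvGen.rel _ _ (Lk2.upp _ _ ?_))
      have := HL.fall (N := k + (2 * n - (k + 1))) (m := k + (2 * n - (k + 1))) (ω := ω')
        ((2 * n - 1) * s + q) t (by rw [hmod]; exact h7)
      rw [add_assoc] at this
      exact this
    · have a1 := psi_up (ω := ω) (ω' := ω') hk hn hd s q t h3 (by omega) (by omega)
      have a2 := psi_up (ω := ω) (ω' := ω') hk hn hd s (q + 1) (t + 1) (by omega) (by omega)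
        (by omega)
      have e4 : -((t + 1 : ℕ) : ℤ) = -t - 1 := by push_cast; ring
      have e5 : (-(t : ℤ) - 1 + 1) = -t := by ring
      rw [e4, ← add_assoc] at a2
      rw [e5]
      refine a1.trans _ _ _ (Relation.EqvGen.trans _ _ _ ?_ (a2.symm _ _))
      refine Relation.EqvGen.rel _ _ (Lk2.upp _ _ ?_)
      have := HL.rise (N := k + (2 * n - (k + 1))) (m := k + (2 * n - (k + 1))) (ω := ω')
        ((2 * n - 1) * s + q) t (by
          rw [hmod]
          cases h8 : ω' (q, t)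
          · rfl
          · exact absurd (hval.1 h8) h6)
      rw [add_assoc] at this
      exact this
  · obtain ⟨t, rfl⟩ : ∃ t : ℕ, d = t := ⟨d.toNat, by omega⟩
    rw [nrm_pos hd, nrm_pos hd, nrm_pos hd, nrm_pos hd, Ri_union (by omega)] at h2
    have e6 : (t : ℤ) + 1 = ((t + 1 : ℕ) : ℤ) := by push_cast; rfl
    have hlo := H.lo (s' + 1) t
    rw [add_sub_cancel_right] at hlo
    rcases h2 with ⟨h6, rfl, rfl⟩ | ⟨h6, rfl, rfl⟩
    · rw [e6, psi_lo, psi_lo]
      refine Relation.EqvGen.rel _ _ (Lk2.low _ _ (HL.rise _ _ ?_))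
      rw [e2]
      cases h8 : ω ((s' + 1) % (2 * n : ℕ), t)
      · rfl
      · exact absurd h6 (hlo.1 h8)
    · rw [e6, psi_lo, psi_lo]
      refine Relation.EqvGen.symm _ _ (Relation.EqvGen.rel _ _ (Lk2.low _ _ (HL.fall _ _ ?_)))
      rw [e2]
      exact hlo.2 h6

/-- the fibres are connected -/
theorem ret (hk : 1 ≤ k) (hn : 2 * k + 2 ≤ n) (H : CmpY n k G ω ω') (x : (ℤ × ℕ) × Bool) :
    Relation.EqvGen (Lk2 (k + 1) k (2 * n - (k + 1)) ω ω') (psi n (phi n k x)) x := by
  obtain ⟨⟨j, t⟩, b⟩ := x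
  have hn1 : 1 ≤ n := by omega
  cases b
  · rw [phi_lo, psi_lo, sub_add_cancel]
    exact Relation.EqvGen.refl _
  · obtain ⟨s, q, h0, h1, h2⟩ : ∃ s q : ℤ, 1 ≤ q ∧ q < 2 * n ∧ j = (2 * n - 1) * s + q := by
      refine ⟨(j - 1) / (2 * n - 1), (j - 1) % (2 * n - 1) + 1, ?_, ?_, ?_⟩
      · have := Int.emod_nonneg (j - 1) (by omega : (2 * (n : ℤ) - 1) ≠ 0)
        omega
      · have := Int.emod_lt_of_pos (j - 1) (by omega : 0 < (2 * (n : ℤ) - 1))
        omega
      · have := Int.mul_ediv_add_emod (j - 1) (2 * n - 1)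
        linarith
    subst h2
    by_cases htip : t = 0 ∧ q < k
    · obtain ⟨rfl, h3⟩ := htip
      rw [phi_tip hn1 s q h0 h3 h1]
      have a1 := psi_up' (ω := ω) (ω' := ω') hk hn s (q + 1) 1 (by omega) (by omega) (by omega)
      rw [← add_assoc, ← add_assoc] at a1
      refine Relation.EqvGen.trans _ _ _ a1 (Relation.EqvGen.symm _ _
        (Relation.EqvGen.rel _ _ (Lk2.upp _ _ ?_)))
      refine HL.rise _ _ ?_
      have hmod : ((2 * (n : ℤ) - 1) * s + q) % ((k + (2 * n - (k + 1)) : ℕ) : ℤ) = q := by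
        have e3 : ((k + (2 * n - (k + 1)) : ℕ) : ℤ) = 2 * n - 1 := by omega
        rw [e3, show (2 * (n : ℤ) - 1) * s + q = q + (2 * n - 1) * s by ring,
          Int.add_mul_emod_self_left]
        exact Int.emod_eq_of_lt (by omega) (by omega)
      rw [hmod]
      exact H.tip q (by omega) h3
    · rw [phi_up' hn1 s q t h0 h1 (by omega)]
      exact psi_up' hk hn s q t h0 h1 (by omega)

/-- **the two descriptions agree** -/
theorem iso (hk : 1 ≤ k) (hn : 2 * k + 2 ≤ n) (H : CmpY n k G ω ω') (x y : (ℤ × ℕ) × Bool) :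
    RY n k G (phi n k x) (phi n k y) ↔
      Relation.EqvGen (Lk2 (k + 1) k (2 * n - (k + 1)) ω ω') x y := by
  constructor
  · intro h
    have := bwd hk hn H h
    exact ((ret hk hn H x).symm _ _).trans _ _ _ (this.trans _ _ _ (ret hk hn H y))
  · exact fwd hk hn H

theorem phi_sec (hk : 1 ≤ k) (hn : 2 * k + 2 ≤ n) (s : ℤ) (c : ℕ) (hc : c < 2 * k + 1) :
    phi n k (sec2 (k + 1) k (2 * n - (k + 1)) s c) = scy n k s c := by
  unfold sec2 scy
  by_cases h : c ≤ k + 1
  · rw [if_pos h, if_pos h, phi_lo]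
    have e2 : (k + 1 + (2 * n - (k + 1)) : ℕ) = 2 * n := by omega
    rw [e2]
    simp only [Nat.cast_zero, Prod.mk.injEq, and_true]
    push_cast
    ring
  · rw [if_neg h, if_neg h]
    have e3 : ((k + (2 * n - (k + 1)) : ℕ) : ℤ) = 2 * n - 1 := by omega
    rw [e3]
    have e4 : s * (2 * (n : ℤ) - 1) + (((k + 1 : ℕ) : ℤ) + k - c) =
        (2 * n - 1) * s + (2 * k + 1 - c) := by
      push_cast; ring
    rw [e4, phi_tip (by omega) s (2 * k + 1 - c) (by omega) (by omega) (by omega)]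
    simp only [Prod.mk.injEq, and_true]
    ring

end TISY

theorem t_ISY : S_ISY := by
  intro n k G ω ω' hk hn H s t c d hc hd
  rw [← TISY.iso hk hn H, TISY.phi_sec hk hn s c hc, TISY.phi_sec hk hn t d hd]

end Pool.Agent.W801.OW
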