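import Pool.Agent.W801.OW.Stm

/-! # From the band to the infinite dislocated cylinder, `2 k + 1` legs -/

set_option autoImplicit false

namespace Pool.Agent.W801.OW
open H974 H906.Cyl
open MeasureTheory
open Pool.Agent.H160R2.MU (PC)
open Pool.Agent.W801.OL
open Pool.Agent.W808.HB (Alt coinsH)
open Pool.Agent.W808.KY (Hn En scy RY Outy Sep Gy NAd Shy Ony)
open Pool.Agent.W801.OU (zp nrm Dg LZ RZ Zn Cor)
open Pool.Agent.W801.OU.TISO
open Pool.Agent.W801.OU.TONI (vl cn bt Go Fo mem_Fo per_Fo cmp_Go prob nrm_snd prC)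

namespace TONY

/-- a link at height less than `M` is in the band -/
theorem link_iff {n M : ℕ} (hn : 0 < n) (Z : Set ℤ) (B X : Set Edg)
    {ω : (ℤ × ℕ → Bool) × (ℤ × ℕ → Bool)} {x y : ℤ × ℤ} (h : |x.2| < M ∨ |y.2| < M) :
    LZ Z B (Go n ω ∪ X) x y ↔ LZ Z B (per n (Fo n M ω) ∪ X) x y := by
  have key : ∀ e : Edg, (∀ c, Dg Z c e x y → -(M : ℤ) ≤ dco e ∧ dco e < M) := by
    intro e c hD
    have h2 : (x.2 = dco e ∨ x.2 = dco e + 1) ∧ (y.2 = dco e ∨ y.2 = dco e + 1) := by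
      rcases hD with h | h
      · rw [nrm_snd, nrm_snd]; simp
      · rw [nrm_snd, nrm_snd]; simp
    rw [abs_lt, abs_lt] at h
    omega
  have mem : ∀ e : Edg, (-(M : ℤ) ≤ dco e ∧ dco e < M) →
      (e ∈ Go n ω ∪ X ↔ e ∈ per n (Fo n M ω) ∪ X) := by
    intro e he
    rw [Set.mem_union, Set.mem_union, per_Fo hn he.1 he.2]
  unfold LZ
  refine exists_congr fun e => and_congr_right fun _ => and_congr_right fun _ => ?_
  constructor
  · rintro (⟨h1, h2⟩ | ⟨h1, h2⟩)
    · exact Or.inl ⟨(mem e (key e _ h2)).1 h1, h2⟩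
    · exact Or.inr ⟨fun h => h1 ((mem e (key e _ h2)).2 h), h2⟩
  · rintro (⟨h1, h2⟩ | ⟨h1, h2⟩)
    · exact Or.inl ⟨(mem e (key e _ h2)).2 h1, h2⟩
    · exact Or.inr ⟨fun h => h1 ((mem e (key e _ h2)).1 h), h2⟩

/-- the cluster is the same -/
theorem clu {n M k : ℕ} (hn : 0 < n) {ω : (ℤ × ℕ → Bool) × (ℤ × ℕ → Bool)} {c : ℕ}
    (hS : Shy n k M (per n (Fo n M ω)) c) (x : ℤ × ℤ) :
    RY n k (Go n ω) (scy n k 0 c) x ↔ RY n k (per n (Fo n M ω)) (scy n k 0 c) x := by
  constructor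
  · have key : ∀ {x y : ℤ × ℤ}, RY n k (Go n ω) x y →
        (RY n k (per n (Fo n M ω)) (scy n k 0 c) x ↔
          RY n k (per n (Fo n M ω)) (scy n k 0 c) y) := by
      intro x y h
      induction h with
      | rel x y h =>
        constructor
        · intro h1
          exact h1.trans _ _ _ (Relation.EqvGen.rel _ _
            ((link_iff hn _ _ _ (Or.inl (hS _ h1))).1 h))
        · intro h1
          exact h1.trans _ _ _ ((Relation.EqvGen.rel _ _
            ((link_iff hn _ _ _ (Or.inr (hS _ h1))).1 h)).symm _ _)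
      | refl x => exact Iff.rfl
      | symm x y _ ih => exact ih.symm
      | trans x y z _ _ ih1 ih2 => exact ih1.trans ih2
    intro h
    exact (key h).1 (Relation.EqvGen.refl _)
  · have key : ∀ {x y : ℤ × ℤ}, RY n k (per n (Fo n M ω)) x y →
        ((RY n k (per n (Fo n M ω)) (scy n k 0 c) x ∧ RY n k (Go n ω) (scy n k 0 c) x) ↔
         (RY n k (per n (Fo n M ω)) (scy n k 0 c) y ∧ RY n k (Go n ω) (scy n k 0 c) y)) := by
      intro x y h
      induction h with
      | rel x y h =>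
        constructor
        · rintro ⟨h1, h2⟩
          exact ⟨h1.trans _ _ _ (Relation.EqvGen.rel _ _ h), h2.trans _ _ _
            (Relation.EqvGen.rel _ _ ((link_iff hn _ _ _ (Or.inl (hS _ h1))).2 h))⟩
        · rintro ⟨h1, h2⟩
          exact ⟨h1.trans _ _ _ ((Relation.EqvGen.rel _ _ h).symm _ _), h2.trans _ _ _
            ((Relation.EqvGen.rel _ _ ((link_iff hn _ _ _ (Or.inr (hS _ h1))).2 h)).symm _ _)⟩
      | refl x => exact Iff.rfl
      | symm x y _ ih => exact ih.symm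
      | trans x y z _ _ ih1 ih2 => exact ih1.trans ih2
    intro h
    exact ((key h).1 ⟨Relation.EqvGen.refl _, Relation.EqvGen.refl _⟩).2

theorem det (hISY : S_ISY) (hWY : S_WY) {n M k : ℕ} (hk : 1 ≤ k) (hn : 2 * k + 2 ≤ n)
    {ω : (ℤ × ℕ → Bool) × (ℤ × ℕ → Bool)} (t t' : ℕ) (hA : Alt (2 * n) ω.1 t)
    (hA' : Alt (2 * n - 1) ω.2 t') (htip : ∀ j : ℤ, 0 ≤ j → j < k → ω.2 (j, 0) = false)
    (h : Ony n k M (per n (Fo n M ω))) : LegEv2 (k + 1) k (2 * n - (k + 1)) ω.1 ω.2 := by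
  have hn0 : 0 < n := by omega
  have H0 := cmp_Go (by omega : 1 ≤ n) ω
  have H : CmpY n k (Go n ω) ω.1 ω.2 :=
    ⟨H0.lo, fun s j t h0 h1 _ => H0.up s j t h0 h1, htip⟩
  obtain ⟨S, hS, hall⟩ := h
  have W := hWY n k (Go n ω) ω.1 ω.2 t t' hk hn H hA hA'
  have G := W.w2 S hS (fun c hc => by
    obtain ⟨⟨s, hs, d, hd, h2⟩, h3, h4⟩ := hall c hc
    refine ⟨⟨s, hs, d, hd, (clu hn0 h4 _).2 h2⟩, fun d hd hdc h => ?_⟩
    exact h3 d hd hdc ((clu hn0 h4 _).1 h))
  have I := hISY n k (Go n ω) ω.1 ω.2 hk hn H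
  refine ⟨fun c d hc hd hcd h => ?_, fun c hc => ?_⟩
  · exact G.1 c d (by omega) (by omega) hcd ((I 0 0 c d (by omega) (by omega)).2 h)
  · obtain ⟨s, hs, d, hd, h2⟩ := G.2 c (by omega)
    exact ⟨s, hs, d, by omega, (I 0 s c d (by omega) hd).1 h2⟩

/-! ## the squares at the slit -/

/-- the squares at the slit -/
def Kt (k : ℕ) : Finset Edg := (Finset.range k).image (fun j : ℕ => edz (j : ℤ) (-1))

/-- the open ones -/
def K0 (k : ℕ) : Finset Edg :=
  ((Finset.range k).filter (fun j => j % 2 = 0)).image (fun j : ℕ => edz (j : ℤ) (-1))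

/-- the state of the squares at the slit -/
def St (k : ℕ) (F : Finset Edg) : Prop :=
  ∀ j : ℕ, j < k → (edz (j : ℤ) (-1) ∈ F ↔ j % 2 = 0)

/-- the squares at the slit in the right state -/
def fx (k : ℕ) (F : Finset Edg) : Finset Edg := (F \ Kt k) ∪ K0 k

theorem mem_Kt {k : ℕ} {e : Edg} : e ∈ Kt k ↔ ∃ j : ℕ, j < k ∧ edz (j : ℤ) (-1) = e := by
  simp [Kt]

theorem mem_K0 {k : ℕ} {e : Edg} :
    e ∈ K0 k ↔ ∃ j : ℕ, (j < k ∧ j % 2 = 0) ∧ edz (j : ℤ) (-1) = e := by
  simp [K0]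

theorem K0_sub (k : ℕ) : K0 k ⊆ Kt k := by
  intro e he
  obtain ⟨j, hj, rfl⟩ := mem_K0.1 he
  exact mem_Kt.2 ⟨j, hj.1, rfl⟩

theorem edz_inj {i j : ℕ} (h : edz (i : ℤ) (-1) = edz (j : ℤ) (-1)) : i = j := by
  have h1 := edz_sum (i : ℤ) (-1)
  have h2 := edz_sum (j : ℤ) (-1)
  rw [h] at h1
  omega

theorem mem_fx {k : ℕ} {F : Finset Edg} {e : Edg} (he : e ∉ Kt k) : e ∈ fx k F ↔ e ∈ F := by
  unfold fx
  rw [Finset.mem_union, Finset.mem_sdiff]
  constructor
  · rintro (h | h)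
    · exact h.1
    · exact absurd (K0_sub k h) he
  · intro h
    exact Or.inl ⟨h, he⟩

theorem St_fx (k : ℕ) (F : Finset Edg) : St k (fx k F) := by
  intro j hj
  unfold fx
  rw [Finset.mem_union, Finset.mem_sdiff, mem_K0]
  constructor
  · rintro (h | ⟨i, hi, h⟩)
    · exact absurd (mem_Kt.2 ⟨j, hj, rfl⟩) h.2
    · rw [← edz_inj h]
      exact hi.2
  · intro h
    exact Or.inr ⟨j, ⟨hj, h⟩, rfl⟩

theorem RY_congr {n k : ℕ} {F F' : Finset Edg} (h : ∀ e, e ∉ Kt k → (e ∈ F ↔ e ∈ F')) :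
    RY n k (per n F) = RY n k (per n F') := by
  have hmem : ∀ e ∈ Hn n k, (e ∈ per n F ∪ En n ↔ e ∈ per n F' ∪ En n) := by
    intro e he
    by_cases hE : e ∈ En n
    · exact ⟨fun _ => Or.inr hE, fun _ => Or.inr hE⟩
    · have hK : red n e ∉ Kt k := by
        intro hK
        obtain ⟨j, hj, hje⟩ := mem_Kt.1 hK
        have h1 : dco e = -1 := by
          rw [← dco_red n e, ← hje, dco_edz]
        have h2 : (e.1 + e.2.1) % ((2 * n : ℕ) : ℤ) = j := by
          have h3 := edz_sum (j : ℤ) (-1)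
          rw [hje] at h3
          have h4 : (red n e).1 + (red n e).2.1 =
              (e.1 + e.2.1) - 2 * n * ((e.1 + e.2.1) / (2 * n)) := by
            show e.1 - n * ((e.1 + e.2.1) / (2 * n)) + (e.2.1 - n * ((e.1 + e.2.1) / (2 * n))) = _
            ring
          rw [← h3, h4, Int.emod_def]
          push_cast
          ring
        rcases Nat.eq_zero_or_pos j with h5 | h5
        · apply hE
          refine ⟨h1, ?_⟩
          rw [h2, h5]
          rfl
        · apply he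
          refine ⟨h1, ?_, ?_⟩
          · rw [h2]; omega
          · rw [h2]; omega
      rw [Set.mem_union, Set.mem_union]
      have h6 : e ∈ per n F ↔ e ∈ per n F' := h _ hK
      rw [h6]
  have hL : LZ (Zn n) (Hn n k) (per n F ∪ En n) = LZ (Zn n) (Hn n k) (per n F' ∪ En n) := by
    funext x y
    apply propext
    unfold LZ
    refine exists_congr fun e => and_congr_right fun he => and_congr_right fun _ => ?_
    rw [hmem e he]
  unfold RY RZ
  rw [hL]

theorem Ony_congr {n k M : ℕ} {F F' : Finset Edg} (h : ∀ e, e ∉ Kt k → (e ∈ F ↔ e ∈ F')) :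
    Ony n k M (per n F) ↔ Ony n k M (per n F') := by
  have e := RY_congr (n := n) h
  unfold Ony Outy Pool.Agent.W808.KY.Sep Shy
  rw [e]

theorem PC_le {n M k : ℕ} (hM : 1 ≤ M) (hk : k ≤ 2 * n) (A : Finset Edg → Prop)
    (hA : ∀ F, A F → A (fx k F)) :
    PC n M A ≤ 2 ^ k * PC n M (fun F => A F ∧ St k F) := by
  classical
  have hsum : ∀ B : Finset Edg → Prop, ∑ F ∈ (CE n M).powerset, ind (B F) =
      (((CE n M).powerset.filter B).card : ℝ) := by
    intro B
    rw [Finset.card_filter]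
    push_cast
    refine Finset.sum_congr rfl fun F _ => ?_
    by_cases h : B F
    · rw [ind_of h, if_pos h]
    · rw [ind_not_of h, if_neg h]
  have hK0 : K0 k ⊆ CE n M := by
    intro e he
    obtain ⟨j, hj, rfl⟩ := mem_K0.1 he
    rw [mem_CE, edz_sum, dco_edz]
    omega
  have hcard : ((CE n M).powerset.filter A).card ≤
      2 ^ k * ((CE n M).powerset.filter (fun F => A F ∧ St k F)).card := by
    refine Finset.card_le_mul_card_image_of_maps_to (f := fx k) ?_ _ ?_
    · intro F hF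
      rw [Finset.mem_filter, Finset.mem_powerset] at hF ⊢
      refine ⟨?_, hA F hF.2, St_fx k F⟩
      unfold fx
      exact Finset.union_subset (Finset.sdiff_subset.trans hF.1) hK0
    · intro b _
      have h1 : (((CE n M).powerset.filter A).filter (fun F => fx k F = b)).card ≤
          ((Kt k).powerset).card := by
        refine Finset.card_le_card_of_injOn (fun F => F ∩ Kt k) ?_ ?_
        · intro F _
          rw [Finset.mem_coe, Finset.mem_powerset]
          exact Finset.inter_subset_right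
        · intro F hF F' hF' hFF
          rw [Finset.mem_coe, Finset.mem_filter] at hF hF'
          ext e
          by_cases he : e ∈ Kt k
          · have h2 : e ∈ F ∩ Kt k ↔ e ∈ F' ∩ Kt k := by
              have h3 : F ∩ Kt k = F' ∩ Kt k := hFF
              rw [h3]
            simpa [he] using h2
          · rw [← mem_fx (F := F) he, ← mem_fx (F := F') he, hF.2, hF'.2]
      refine h1.trans ?_
      rw [Finset.card_powerset]
      refine Nat.pow_le_pow_right (by norm_num) ?_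
      exact Finset.card_image_le.trans (Finset.card_range k).le
  unfold PC
  rw [H906.Cyl.Pr_half, H906.Cyl.Pr_half, hsum, hsum]
  have h2 : (((CE n M).powerset.filter A).card : ℝ) ≤
      2 ^ k * (((CE n M).powerset.filter (fun F => A F ∧ St k F)).card : ℝ) := by
    exact_mod_cast hcard
  have h3 : (0 : ℝ) ≤ (1 / 2) ^ (CE n M).card := by positivity
  calc (1 / 2 : ℝ) ^ (CE n M).card * (((CE n M).powerset.filter A).card : ℝ)
      ≤ (1 / 2 : ℝ) ^ (CE n M).card *
        (2 ^ k * (((CE n M).powerset.filter (fun F => A F ∧ St k F)).card : ℝ)) :=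
        mul_le_mul_of_nonneg_left h2 h3
    _ = _ := by
        rw [mul_left_comm]
        congr!

theorem tip {n M k : ℕ} (hM : 1 ≤ M) (hk : k ≤ n) {ω : (ℤ × ℕ → Bool) × (ℤ × ℕ → Bool)}
    (hn : 1 ≤ n) (h : St k (Fo n M ω)) : ∀ j : ℤ, 0 ≤ j → j < k → ω.2 (j, 0) = false := by
  intro j h0 h1
  obtain ⟨i, rfl⟩ := Int.eq_ofNat_of_zero_le h0
  have hi : i < k := by exact_mod_cast h1
  have h2 := h i hi
  rw [mem_Fo] at h2
  have hCE : edz (i : ℤ) (-1) ∈ CE n M := by
    rw [mem_CE, edz_sum, dco_edz]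
    omega
  have h3 : edz (i : ℤ) (-1) ∈ Go n ω ↔ i % 2 = 0 := by
    rw [← h2]
    exact ⟨fun h => ⟨hCE, h⟩, fun h => h.2⟩
  have h4 := (cmp_Go hn ω).up 0 (i : ℤ) 0 h0 (by omega)
  have e1 : (2 * (n : ℤ) * 0 + (i : ℤ)) = i := by ring
  have e2 : (-((0 : ℕ) : ℤ) - 1) = -1 := by norm_num
  rw [e1, e2] at h4
  unfold Ri at h4
  rw [h3] at h4
  by_contra h5
  rw [Bool.not_eq_false] at h5
  have h6 := h4.1 h5
  omega

end TONY

open TONY in
theorem t_ONY (hISY : S_ISY) (hWY : S_WY) : S_ONY := by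
  intro n M k hk hn
  rcases Nat.eq_zero_or_pos M with hM | hM
  · subst hM
    have h1 : PC n 0 (fun F => Ony n k 0 (per n F)) = 0 := by
      unfold PC
      rw [H906.Cyl.Pr_half]
      rw [Finset.sum_eq_zero, mul_zero]
      intro F _
      apply ind_not_of
      rintro ⟨S, hS, hall⟩
      have hne : S.Nonempty := by
        rw [← Finset.card_pos, hS.1]
        omega
      obtain ⟨c, hc⟩ := hne
      have h2 := (hall c hc).2.2 _ (Relation.EqvGen.refl _)
      have h3 := abs_nonneg (scy n k 0 c).2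
      have h4 : ((0 : ℕ) : ℤ) = 0 := rfl
      rw [h4] at h2
      linarith
    rw [h1]
    positivity
  · refine (PC_le hM (by omega) (fun F => Ony n k M (per n F)) (fun F hF =>
      (Ony_congr (fun e he => (mem_fx he).symm)).1 hF)).trans ?_
    refine mul_le_mul_of_nonneg_left ?_ (by positivity)
    rw [← prob n M (fun F => Ony n k M (per n F) ∧ St k F)]
    refine le_of_forall_pos_le_add fun ε hε => ?_
    obtain ⟨K1, hK1⟩ := Pool.Agent.W808.HB.t_X6 (2 * n - 1) (ε / 2) (half_pos hε)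
    obtain ⟨K2, hK2⟩ := Pool.Agent.W808.HB.t_X6 (2 * n - 2) (ε / 2) (half_pos hε)
    rw [show 2 * n - 1 + 1 = 2 * n by omega] at hK1
    rw [show 2 * n - 2 + 1 = 2 * n - 1 by omega] at hK2
    have hsub : {ω : (ℤ × ℕ → Bool) × (ℤ × ℕ → Bool) |
        Ony n k M (per n (Fo n M ω)) ∧ St k (Fo n M ω)} ⊆
        {ω | LegEv2 (k + 1) k (2 * n - (k + 1)) ω.1 ω.2} ∪
          ({ω | ¬ ∃ t < K1, Alt (2 * n) ω.1 t} ∪ {ω | ¬ ∃ t < K2, Alt (2 * n - 1) ω.2 t}) := by
      rintro ω ⟨hP, hSt⟩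
      by_cases hb : ∃ t < K1, Alt (2 * n) ω.1 t
      · by_cases hb2 : ∃ t < K2, Alt (2 * n - 1) ω.2 t
        · left
          obtain ⟨t, -, hA⟩ := hb
          obtain ⟨t', -, hA'⟩ := hb2
          exact det hISY hWY hk hn t t' hA hA' (tip hM (by omega) (by omega) hSt) hP
        · exact Or.inr (Or.inr hb2)
      · exact Or.inr (Or.inl hb)
    have h1 := (measureReal_mono (μ := coinsH.prod coinsH) hsub).trans
      ((measureReal_union_le _ _).trans (add_le_add_right (measureReal_union_le _ _) _))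
    have h2 := TY3.fst_real coinsH coinsH (fun ω => ¬ ∃ t < K1, Alt (2 * n) ω t)
    have h3 := TY3.snd_real coinsH coinsH (fun ω => ¬ ∃ t < K2, Alt (2 * n - 1) ω t)
    rw [h2, h3] at h1
    linarith

/-- **the law** -/
theorem t_ONE (hONY : S_ONY) : Pool.Agent.W808.KY.S_ONE := by
  intro k hk
  obtain ⟨c, C, hc, hC, h⟩ := a_Y4.2 (k + 1) k ⟨k, by ring⟩
  refine ⟨2 ^ k * C, mul_pos (pow_pos two_pos k) hC, fun n M hn => (hONY n M k hk hn).trans ?_⟩
  have h1 := (h (2 * n - (k + 1)) (by omega)).2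
  rw [mul_assoc]
  refine mul_le_mul_of_nonneg_left (h1.trans ?_) (by positivity)
  refine mul_le_mul_of_nonneg_left ?_ hC.le
  have e' : -((((((k + 1 : ℕ) : ℝ)) + (k : ℝ)) ^ 2 - 1) / 12) = -((k : ℝ) * (k + 1) / 3) := by
    push_cast
    ring
  rw [e']
  refine Real.rpow_le_rpow_of_nonpos (Nat.cast_pos.2 (by omega)) ?_ ?_
  · exact_mod_cast (by omega : n ≤ 2 * n - (k + 1))
  · have : (0 : ℝ) ≤ (k : ℝ) * (k + 1) / 3 := by positivity
    linarith

end Pool.Agent.W801.OW
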