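import Pool.Agent.W801.OW.Stm
import Pool.Agent.W801.OU.T_TRI2

/-! # Odd number of legs: coins with alternating rows -/

set_option autoImplicit false

namespace Pool.Agent.W801.OW
open Pool.Agent.H863R2.Cyl
open Pool.Agent.H988R2.Perc (Word)
open Pool.Agent.H160R2.ML (Good Cn pt)
open Pool.Agent.W801.OL
open Pool.Agent.W808.HB (Alt coinsH HL crow)

theorem t_WC : S_WW → S_WC := by
  intro hWW k p r M t t' hpr hM ω ω' hA hA'
  obtain ⟨m, hm⟩ : ∃ m, m + 1 = p + M := ⟨p + M - 1, by omega⟩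
  obtain ⟨n, hn⟩ : ∃ n, n + 1 = r + M := ⟨r + M - 1, by omega⟩
  have hσ : Nonempty (Wd (m + 1)) :=
    ⟨⟨Pool.Agent.W808.HB.bwm (m + 1), Tone.bwm_length _, Tone.bwm_ok _⟩⟩
  have hτ : Nonempty (Wd (n + 1)) :=
    ⟨⟨Pool.Agent.W808.HB.bwm (n + 1), Tone.bwm_length _, Tone.bwm_ok _⟩⟩
  obtain ⟨σ⟩ := hσ
  obtain ⟨τ⟩ := hτ
  have hw : (wdw m (t + 1) ω σ).length = p + M := by
    rw [← hm]; exact (rows m (crow (m + 1) (t + 1) ω) (t + 1) σ).2.1
  have hw' : (wdw n (t' + 1) ω' τ).length = r + M := by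
    rw [← hn]; exact (rows n (crow (n + 1) (t' + 1) ω') (t' + 1) τ).2.1
  have hX : ∀ (β : Bool) (a b : ℤ), Relation.EqvGen (TY1.hf p r M ω ω' β) (a, 0) (b, 0) ↔
      Relation.EqvGen (Rw (bif β then (wdw n (t' + 1) ω' τ) else (wdw m (t + 1) ω σ))) a b := by
    intro β a b
    cases β
    · have h1 := a_X3 m (t + 1) (m + 1) t (by omega) (by omega) ω
        (by rw [hm]; exact hA) σ a b
      rw [TY1.lw_rw] at h1
      have h2 : TY1.hf p r M ω ω' false = HL (m + 1) (m + 1) ω := by rw [hm]; rfl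
      rw [h2]
      exact h1
    · have h1 := a_X3 n (t' + 1) (n + 1) t' (by omega) (by omega) ω'
        (by rw [hn]; exact hA') τ a b
      rw [TY1.lw_rw] at h1
      have h2 : TY1.hf p r M ω ω' true = HL (n + 1) (n + 1) ω' := by rw [hn]; rfl
      rw [h2]
      exact h1
  have hiff : ∀ x y : ℤ × Bool, Relation.EqvGen (Lk2 p r M ω ω') (TY1.lift x) (TY1.lift y) ↔
      Cn p r (wdw n (t' + 1) ω' τ) (wdw m (t + 1) ω σ) x y :=
    fun x y => ⟨TY1.lk_cn hw hw' hX, TY1.cn_lk hw hw' hX⟩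
  have h := hWW k p r M (wdw n (t' + 1) ω' τ)
      (wdw m (t + 1) ω σ) hpr (rows n (crow (n + 1) (t' + 1) ω') (t' + 1) τ).2.2
      (rows m (crow (m + 1) (t + 1) ω) (t + 1) σ).2.2 hw hw'
  have hQ : (fun (s : ℤ) (c : ℕ) (s' : ℤ) (d : ℕ) =>
      Relation.EqvGen (Lk2 p r M ω ω') (sec2 p r M s c) (sec2 p r M s' d)) =
      fun s c s' d => Cn p r (wdw n (t' + 1) ω' τ) (wdw m (t + 1) ω σ)
        (pt p r (wdw n (t' + 1) ω' τ) (wdw m (t + 1) ω σ) s c)
        (pt p r (wdw n (t' + 1) ω' τ) (wdw m (t + 1) ω σ) s' d) := by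
    funext s c s' d
    simp only [TY1.sec_pt hw hw', hiff]
  rw [hQ]
  exact h

end Pool.Agent.W801.OW
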