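import Pool.Agent.W801.OW.Stm
import Pool.Agent.W801.OU.T_TRIw

/-! # Dichotomies for an odd number of legs (words), by helper935 -/

set_option autoImplicit false

namespace Pool.Agent.W801.OW
open Pool.Agent.H863R2.Cyl
open Pool.Agent.H988R2.Perc (Word)
open Pool.Agent.H160R2.ML
open Pool.Agent.W808.HB (bwm)
open Pool.Agent.W808.KY (NAd)
open Pool.Agent.W801.OU.TTRI (Pq rw_same)

namespace TWW

theorem mod_inj {l x y : ℕ} (hx : x < l) (hy : y < l) (h : (x + 1) % l = (y + 1) % l) : x = y := by
  have h1 : x ≡ y [MOD l] := Nat.ModEq.add_right_cancel' 1 h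
  unfold Nat.ModEq at h1
  rwa [Nat.mod_eq_of_lt hx, Nat.mod_eq_of_lt hy] at h1

theorem WQ_of_GQ {k : ℕ} {Q : ℤ → ℕ → ℤ → ℕ → Prop} (h : GQ (2 * k + 1) Q) : WQ k Q := by
  refine ⟨fun _ => h, fun _ _ _ => h, Finset.range (k + 1), Finset.card_range _, fun c hc => ?_,
    fun c hc d hd hcd => ?_⟩
  · have := Finset.mem_range.1 hc
    omega
  · have h1 := Finset.mem_range.1 hc
    have h2 := Finset.mem_range.1 hd
    exact h.1 c d (by omega) (by omega) hcd

/-- relabelling of the sectors -/
theorem WQ_congr {k : ℕ} {Q Q' : ℤ → ℕ → ℤ → ℕ → Prop} (ρ σ : ℕ → ℕ)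
    (h1 : ∀ c, c < 2 * k + 1 → ρ c < 2 * k + 1) (h2 : ∀ c, c < 2 * k + 1 → σ c < 2 * k + 1)
    (h3 : ∀ c, c < 2 * k + 1 → σ (ρ c) = c) (h4 : ∀ c, c < 2 * k + 1 → ρ (σ c) = c)
    (h5 : (∀ c, c < 2 * k + 1 → ρ ((c + 1) % (2 * k + 1)) = (ρ c + 1) % (2 * k + 1)) ∨
      ∀ c, c < 2 * k + 1 → ρ c = (ρ ((c + 1) % (2 * k + 1)) + 1) % (2 * k + 1))
    (hQ : ∀ (s t : ℤ) (c d : ℕ), c < 2 * k + 1 → d < 2 * k + 1 → (Q s c t d ↔ Q' s (ρ c) t (ρ d)))
    (h : WQ k Q') : WQ k Q := by
  have hinj : ∀ c d, c < 2 * k + 1 → d < 2 * k + 1 → ρ c = ρ d → c = d := fun c d hc hd e => by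
    rw [← h3 c hc, ← h3 d hd, e]
  have hO : ∀ c, c < 2 * k + 1 → (OQ (2 * k + 1) Q c ↔ OQ (2 * k + 1) Q' (ρ c)) := by
    intro c hc
    constructor
    · rintro ⟨s, hs, d, hd, h⟩
      exact ⟨s, hs, ρ d, h1 d hd, (hQ _ _ _ _ hc hd).1 h⟩
    · rintro ⟨s, hs, d, hd, h⟩
      refine ⟨s, hs, σ d, h2 d hd, (hQ _ _ _ _ hc (h2 d hd)).2 ?_⟩
      rw [h4 d hd]
      exact h
  have hG : GQ (2 * k + 1) Q' → GQ (2 * k + 1) Q := by
    rintro ⟨g1, g2⟩
    exact ⟨fun c d hc hd hcd hq => g1 _ _ (h1 c hc) (h1 d hd) (fun e => hcd (hinj c d hc hd e))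
      ((hQ _ _ _ _ hc hd).1 hq), fun c hc => (hO c hc).2 (g2 _ (h1 c hc))⟩
  refine ⟨fun hs => hG (h.w1 ?_), fun S hS hc => hG (h.w2 (S.image ρ) ?_ ?_), ?_⟩
  · intro c d hc hd hcd hq
    refine hs (σ c) (σ d) (h2 c hc) (h2 d hd) (fun e => hcd ?_) ?_
    · rw [← h4 c hc, ← h4 d hd, e]
    · rw [hQ _ _ _ _ (h2 c hc) (h2 d hd), h4 c hc, h4 d hd]
      exact hq
  · obtain ⟨s1, s2, s3⟩ := hS
    refine ⟨?_, ?_, ?_⟩
    · rw [Finset.card_image_of_injOn, s1]
      intro c hc d hd e
      exact hinj c d (s2 c hc) (s2 d hd) e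
    · intro c hc
      obtain ⟨d, hd, rfl⟩ := Finset.mem_image.1 hc
      exact h1 d (s2 d hd)
    · intro c hc hc'
      obtain ⟨d, hd, rfl⟩ := Finset.mem_image.1 hc
      obtain ⟨e, he, hde⟩ := Finset.mem_image.1 hc'
      have hdl := s2 d hd
      have hel := s2 e he
      have hm : ∀ x : ℕ, (x + 1) % (2 * k + 1) < 2 * k + 1 := fun x => Nat.mod_lt _ (by omega)
      rcases h5 with h5 | h5
      · rw [← h5 d hdl] at hde
        have h6 := hinj _ _ hel (hm d) hde
        rw [h6] at he
        exact s3 d hd he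
      · have h6 := h5 e hel
        rw [hde] at h6
        have h7 := mod_inj (h1 d hdl) (h1 _ (hm e)) h6
        have h8 := hinj _ _ hdl (hm e) h7
        rw [h8] at hd
        exact s3 e he hd
  · intro c hc'
    obtain ⟨d, hd, rfl⟩ := Finset.mem_image.1 hc'
    obtain ⟨o1, o2⟩ := hc d hd
    have hdl := hS.2.1 d hd
    refine ⟨(hO d hdl).1 o1, fun e he hed hq => o2 (σ e) (h2 e he) (fun e' => hed ?_) ?_⟩
    · rw [← e', h4 e he]
    · rw [hQ _ _ _ _ hdl (h2 e he), h4 e he]
      exact hq
  · obtain ⟨T, t1, t2, t3⟩ := h.w4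
    refine ⟨T.image σ, ?_, ?_, ?_⟩
    · rw [Finset.card_image_of_injOn, t1]
      intro c hc d hd e
      have e' : σ c = σ d := e
      rw [← h4 c (t2 c hc), ← h4 d (t2 d hd), e']
    · intro c hc
      obtain ⟨d, hd, rfl⟩ := Finset.mem_image.1 hc
      exact h2 d (t2 d hd)
    · intro c hc d hd hcd hq
      obtain ⟨c', hc', rfl⟩ := Finset.mem_image.1 hc
      obtain ⟨d', hd', rfl⟩ := Finset.mem_image.1 hd
      refine t3 c' hc' d' hd' (fun e => hcd (by rw [e])) ?_
      rw [hQ _ _ _ _ (h2 c' (t2 c' hc')) (h2 d' (t2 d' hd')), h4 c' (t2 c' hc'),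
        h4 d' (t2 d' hd')] at hq
      exact hq

/-- symmetry -/
theorem symm {k p r : ℕ} {w' w : Word} (hpr : p + r = 2 * k + 1)
    (h : w'.length + p = w.length + r) (hp : p ≤ w.length) (hT : WQ k (Pq p r w' w)) :
    WQ k (Pq r p w w') := by
  refine WQ_congr (Tsymm.sc (2 * k + 1)) (Tsymm.sc (2 * k + 1)) (fun c hc => Tsymm.sc_lt hc)
    (fun c hc => Tsymm.sc_lt hc) (fun c hc => Tsymm.sc_sc hc) (fun c hc => Tsymm.sc_sc hc)
    (Or.inr ?_) ?_ hT
  · intro c hc
    rcases Nat.lt_or_ge (c + 1) (2 * k + 1) with h1 | h1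
    · rw [Nat.mod_eq_of_lt h1]
      unfold Tsymm.sc
      rcases Nat.eq_zero_or_pos c with h0 | h0
      · subst h0
        rw [if_pos rfl, if_neg (by omega)]
        have e : 2 * k + 1 - (0 + 1) + 1 = 2 * k + 1 := by omega
        rw [e, Nat.mod_self]
      · rw [if_neg (by omega), if_neg (by omega)]
        have e : 2 * k + 1 - (c + 1) + 1 = 2 * k + 1 - c := by omega
        rw [e, Nat.mod_eq_of_lt (by omega)]
    · have e : c + 1 = 2 * k + 1 := by omega
      rw [e, Nat.mod_self]
      unfold Tsymm.sc
      rw [if_pos rfl]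
      rcases Nat.eq_zero_or_pos c with h0 | h0
      · subst h0
        rw [if_pos rfl]
        have e2 : 2 * k + 1 = 1 := by omega
        rw [e2]
      · rw [if_neg (by omega), Nat.mod_eq_of_lt (by omega)]
        omega
  · intro s t c d hc hd
    unfold Pq
    have a1 := Tsymm.pt_sc h hp s (c := Tsymm.sc (2 * k + 1) c) (by rw [hpr]; exact Tsymm.sc_lt hc)
    have a2 := Tsymm.pt_sc h hp t (c := Tsymm.sc (2 * k + 1) d) (by rw [hpr]; exact Tsymm.sc_lt hd)
    rw [hpr, Tsymm.sc_sc hc] at a1
    rw [hpr, Tsymm.sc_sc hd] at a2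
    constructor
    · intro hcn
      have a3 := Tsymm.cn_fl h.symm hcn
      exact (a1.trans _ _ _ a3).trans _ _ _ (a2.symm _ _)
    · intro hcn
      have a3 : Cn p r w' w (Tsymm.fl (pt r p w w' s c)) (Tsymm.fl (pt r p w w' t d)) :=
        ((a1.symm _ _).trans _ _ _ hcn).trans _ _ _ a2
      have a4 := Tsymm.cn_fl h a3
      rwa [Tsymm.fl_fl, Tsymm.fl_fl] at a4

/-- the map of the faces: the small arc is removed -/
def dn (N i : ℕ) (x : ℤ × Bool) : ℤ × Bool := if x.2 = true then x else (Sem4Aux.sm N i x.1, false)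

open Sem4Aux in
theorem fwd {p r i : ℕ} {w' u : Word} (hip : i + 2 ≤ p) (hp : p ≤ u.length + 2)
    {x y : ℤ × Bool} (h : Cn p r w' (lins i u) x y) :
    Cn (p - 2) r w' u (dn u.length i x) (dn u.length i y) := by
  have hi : i ≤ u.length := by omega
  refine TmoveL.eqv_map' (dn u.length i) ?_ h
  intro x y h
  cases h with
  | low a b h =>
    simp only [dn, Bool.false_eq_true, if_false]
    rw [TmoveR.rw_lins' hi] at h
    rcases h with h | ⟨-, -, h⟩
    · rw [h]
      exact Relation.EqvGen.refl _
    · exact Relation.EqvGen.rel _ _ (Lg.low _ _ h)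
  | upp a b h =>
    simp only [dn, if_true]
    exact Relation.EqvGen.rel _ _ (Lg.upp _ _ h)
  | glue s j hj =>
    simp only [dn, Bool.false_eq_true, if_false, if_true]
    rw [Tzero.len_lins] at hj
    have g := Lg.glue (p := p - 2) (r := r) (w' := w') (w := u) s j (by omega)
    obtain ⟨t1, t2⟩ := TinsR.sm_hi (N := u.length) (i := i) hi s (p + j) (by omega) (by omega)
    have e : s * ((lins i u).length : ℤ) + p + j = s * ((u.length : ℤ) + 2) + (p + j) := by
      rw [Tzero.len_lins]; push_cast; ring
    rw [e, t1]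
    have e2 : s * (u.length : ℤ) + ((p - 2 : ℕ) : ℤ) + j = s * (u.length : ℤ) + (p + j) - 2 := by
      have : ((p - 2 : ℕ) : ℤ) = p - 2 := by omega
      rw [this]; ring
    rw [e2] at g
    exact Relation.EqvGen.rel _ _ g

/-- the sectors -/
def lf (i c : ℕ) : ℕ := if c ≤ i then c else c + 2

theorem dn_pt {p r i : ℕ} {w' u : Word} (hip : i + 2 ≤ p) (hp : p ≤ u.length + 2) (s : ℤ) (c : ℕ) :
    dn u.length i (pt p r w' (lins i u) s (lf i c)) = pt (p - 2) r w' u s c := by
  have hi : i ≤ u.length := by omega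
  have hL : ((lins i u).length : ℤ) = (u.length : ℤ) + 2 := by
    rw [Tzero.len_lins]; push_cast; ring
  unfold lf
  by_cases h1 : c ≤ i
  · rw [if_pos h1]
    have e1 : pt p r w' (lins i u) s c = (s * ((u.length : ℤ) + 2) + c, false) := by
      unfold pt
      rw [if_pos (by omega), hL]
    have e2 : pt (p - 2) r w' u s c = (s * (u.length : ℤ) + c, false) := by
      unfold pt
      rw [if_pos (by omega)]
    rw [e1, e2]
    simp only [dn, Bool.false_eq_true, if_false]
    rw [(TinsR.sm_lo (N := u.length) (i := i) hi s c (by omega) (by omega)).1]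
  · rw [if_neg h1]
    by_cases h2 : c + 2 ≤ p
    · have e1 : pt p r w' (lins i u) s (c + 2) =
          (s * ((u.length : ℤ) + 2) + ((c : ℤ) + 2), false) := by
        unfold pt
        rw [if_pos (by omega), hL]
        push_cast
        rfl
      have e2 : pt (p - 2) r w' u s c = (s * (u.length : ℤ) + c, false) := by
        unfold pt
        rw [if_pos (by omega)]
      rw [e1, e2]
      simp only [dn, Bool.false_eq_true, if_false]
      rw [(TinsR.sm_hi (N := u.length) (i := i) hi s ((c : ℤ) + 2) (by omega) (by omega)).1]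
      congr 1
      ring
    · have e1 : pt p r w' (lins i u) s (c + 2) =
          (s * (w'.length : ℤ) + ((p : ℤ) + r - ((c : ℤ) + 2)), true) := by
        unfold pt
        rw [if_neg (by omega)]
        push_cast
        rfl
      have e2 : pt (p - 2) r w' u s c =
          (s * (w'.length : ℤ) + ((p : ℤ) - 2 + r - c), true) := by
        unfold pt
        rw [if_neg (by omega)]
        have : ((p - 2 : ℕ) : ℤ) = p - 2 := by omega
        rw [this]
      rw [e1, e2]
      simp only [dn, if_true]
      congr 1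
      ring

/-- a small arc between two legs -/
theorem zeroc {k p r i : ℕ} {w' u : Word} (hip : i + 2 ≤ p) (hp : p ≤ u.length + 2)
    (hpr : p + r = 2 * (k + 1) + 1) (hl : w'.length + p = u.length + 2 + r)
    (ih : WQ k (Pq (p - 2) r w' u)) : WQ (k + 1) (Pq p r w' (lins i u)) := by
  have hi : i ≤ u.length := by omega
  have hL : ((lins i u).length : ℤ) = (u.length : ℤ) + 2 := by
    rw [Tzero.len_lins]; push_cast; ring
  have hmid : pt p r w' (lins i u) 0 (i + 1) = ((i : ℤ) + 1, false) := by
    unfold pt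
    rw [if_pos (by omega)]
    simp
  have hmid' : ∀ d : ℕ, pt p r w' (lins i u) 0 d = ((i : ℤ) + 1, false) → d = i + 1 := by
    intro d hd
    unfold pt at hd
    split_ifs at hd with h3
    · simp only [Prod.mk.injEq, and_true] at hd
      omega
    · simp at hd
  have hn : ¬ OQ (2 * (k + 1) + 1) (Pq p r w' (lins i u)) (i + 1) := by
    rintro ⟨s, hs, d, hd, h1⟩
    have h2 := (Tzero.inv hip hp h1).1 hmid
    unfold pt at h2
    split_ifs at h2 with h3
    · simp only [Prod.mk.injEq, and_true] at h2
      rw [hL] at h2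
      rcases lt_or_gt_of_ne hs with h4 | h4
      · have : s * ((u.length : ℤ) + 2) ≤ (-1) * ((u.length : ℤ) + 2) :=
          mul_le_mul_of_nonneg_right (by omega) (by positivity)
        omega
      · have : 1 * ((u.length : ℤ) + 2) ≤ s * ((u.length : ℤ) + 2) :=
          mul_le_mul_of_nonneg_right (by omega) (by positivity)
        omega
    · simp at h2
  have hpi : pt p r w' (lins i u) 0 i = ((i : ℤ), false) := by
    unfold pt
    rw [if_pos (by omega)]
    simp
  -- the two neighbours are connected
  have hrw : Rw (lins i u) (i : ℤ) ((i : ℤ) + 2) := by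
    obtain ⟨t1, t2⟩ := TinsR.sm_lo (N := u.length) (i := i) hi 0 i (by omega) (by omega)
    obtain ⟨t3, t4⟩ := TinsR.sm_hi (N := u.length) (i := i) hi 0 (i + 2) (by omega) (by omega)
    have e1 : (0 : ℤ) * ((u.length : ℤ) + 2) + i = i := by ring
    have e2 : (0 : ℤ) * ((u.length : ℤ) + 2) + (i + 2) = (i : ℤ) + 2 := by ring
    rw [e1] at t1 t2
    rw [e2] at t3 t4
    refine rw_same hi t2 t4 ?_
    rw [t1, t3]; ring
  obtain ⟨d, hd1, hd2, hd3, hadj⟩ : ∃ d : ℕ, d < 2 * (k + 1) + 1 ∧ d ≠ i ∧
      ((i + 2 < 2 * (k + 1) + 1 ∧ d = i + 2) ∨ (i + 2 = 2 * (k + 1) + 1 ∧ d = 0)) ∧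
      Pq p r w' (lins i u) 0 i 0 d := by
    rcases Nat.lt_or_ge (i + 2) (2 * (k + 1) + 1) with h1 | h1
    · refine ⟨i + 2, h1, by omega, Or.inl ⟨h1, rfl⟩, ?_⟩
      unfold Pq
      have h02 : pt p r w' (lins i u) 0 (i + 2) = ((i : ℤ) + 2, false) := by
        unfold pt
        rw [if_pos (by omega)]
        simp
      rw [hpi, h02]
      exact Relation.EqvGen.rel _ _ (Lg.low _ _ hrw)
    · obtain rfl : p = i + 2 := by omega
      obtain rfl : r = 0 := by omega
      refine ⟨0, by omega, by omega, Or.inr ⟨by omega, rfl⟩, ?_⟩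
      unfold Pq
      have h00 : pt (i + 2) 0 w' (lins i u) 0 0 = (0, false) := by simp [pt]
      rw [hpi, h00]
      have r1 : Cn (i + 2) 0 w' (lins i u) ((i : ℤ), false) ((i : ℤ) + 2, false) :=
        Relation.EqvGen.rel _ _ (Lg.low _ _ hrw)
      have r2 : Cn (i + 2) 0 w' (lins i u) ((i : ℤ) + 2, false) (0, true) := by
        have g := Lg.glue (p := i + 2) (r := 0) (w' := w') (w := lins i u) 0 0
          (by rw [Tzero.len_lins]; omega)
        have e1 : (0 : ℤ) * ((lins i u).length : ℤ) + ((i + 2 : ℕ) : ℤ) + ((0 : ℕ) : ℤ) =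
            (i : ℤ) + 2 := by
          push_cast; ring
        have e2 : (0 : ℤ) * (w'.length : ℤ) + ((0 : ℕ) : ℤ) + ((0 : ℕ) : ℤ) = 0 := by
          push_cast; ring
        rw [e1, e2] at g
        exact Relation.EqvGen.rel _ _ g
      have r3 : Cn (i + 2) 0 w' (lins i u) (0, false) (0, true) := by
        have g := Lg.glue (p := i + 2) (r := 0) (w' := w') (w := lins i u) (-1) w'.length
          (by rw [Tzero.len_lins]; omega)
        have e1 : (-1 : ℤ) * ((lins i u).length : ℤ) + ((i + 2 : ℕ) : ℤ) + (w'.length : ℤ) = 0 := by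
          rw [hL]
          have : (w'.length : ℤ) + ((i + 2 : ℕ) : ℤ) = u.length + 2 := by exact_mod_cast hl
          linarith
        have e2 : (-1 : ℤ) * (w'.length : ℤ) + ((0 : ℕ) : ℤ) + (w'.length : ℤ) = 0 := by
          push_cast; ring
        rw [e1, e2] at g
        exact Relation.EqvGen.rel _ _ g
      exact (r1.trans _ _ _ r2).trans _ _ _ (r3.symm _ _)
  refine ⟨fun hs => ?_, fun S hS hc => ?_, ?_⟩
  · exact absurd hadj (hs i d (by omega) hd1 (fun e => hd2 e.symm))
  · exfalso
    obtain ⟨s1, s2, s3⟩ := hS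
    have n1 : i + 1 ∉ S := fun h => hn (hc _ h).1
    have n2 : i ∉ S := fun h => (hc _ h).2 d hd1 hd2 hadj
    have n3 : d ∉ S := fun h => (hc _ h).2 i (by omega) (fun e => hd2 e.symm) (hadj.symm _ _)
    have a1 : ∀ c ∈ S, c + 1 < 2 * (k + 1) + 1 → c + 1 ∉ S := by
      intro c h h' h''
      have := s3 c h
      rw [Nat.mod_eq_of_lt h'] at this
      exact this h''
    have a2 : 2 * (k + 1) ∈ S → 0 ∉ S := by
      intro h h'
      have := s3 _ h
      rw [Nat.mod_self] at this
      exact this h'
    have hcard : S.card ≤ (Finset.range k).card := by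
      refine Finset.card_le_card_of_injOn
        (fun c => (if i + 3 ≤ c then c - (i + 3) else c + (2 * (k + 1) + 1) - (i + 3)) / 2) ?_ ?_
      · intro c hcS
        have hcS' : c ∈ S := hcS
        have b1 := s2 c hcS'
        have b2 : c ≠ i + 1 := fun e => n1 (e ▸ hcS')
        have b3 : c ≠ i := fun e => n2 (e ▸ hcS')
        have b4 : c ≠ d := fun e => n3 (e ▸ hcS')
        simp only [Finset.coe_range, Set.mem_Iio]
        split_ifs <;> omega
      · intro c hcS c' hcS' he
        have hc1 : c ∈ S := hcS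
        have hc1' : c' ∈ S := hcS'
        have b1 := s2 c hc1
        have b2 : c ≠ i + 1 := fun e => n1 (e ▸ hc1)
        have b3 : c ≠ i := fun e => n2 (e ▸ hc1)
        have b4 : c ≠ d := fun e => n3 (e ▸ hc1)
        have b1' := s2 c' hc1'
        have b2' : c' ≠ i + 1 := fun e => n1 (e ▸ hc1')
        have b3' : c' ≠ i := fun e => n2 (e ▸ hc1')
        have b4' : c' ≠ d := fun e => n3 (e ▸ hc1')
        have q1 : c' ≠ c + 1 := fun e => a1 c hc1 (by omega) (e ▸ hc1')
        have q2 : c ≠ c' + 1 := fun e => a1 c' hc1' (by omega) (e ▸ hc1)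
        have q3 : ¬ (c = 2 * (k + 1) ∧ c' = 0) := fun e => a2 (e.1 ▸ hc1) (e.2 ▸ hc1')
        have q4 : ¬ (c' = 2 * (k + 1) ∧ c = 0) := fun e => a2 (e.1 ▸ hc1') (e.2 ▸ hc1)
        simp only at he
        split_ifs at he <;> omega
    rw [s1, Finset.card_range] at hcard
    omega
  · obtain ⟨T, t1, t2, t3⟩ := ih.w4
    have hlf : ∀ c, lf i c ≠ i + 1 := by
      intro c
      unfold lf
      split_ifs <;> omega
    have hlfi : ∀ c d, lf i c = lf i d → c = d := by
      intro c d h
      unfold lf at h
      split_ifs at h <;> omega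
    refine ⟨insert (i + 1) (T.image (lf i)), ?_, ?_, ?_⟩
    · rw [Finset.card_insert_of_notMem, Finset.card_image_of_injective, t1]
      · intro c d h
        exact hlfi c d h
      · intro h
        obtain ⟨c, -, hc⟩ := Finset.mem_image.1 h
        exact hlf c hc
    · intro c hc
      rcases Finset.mem_insert.1 hc with h | h
      · omega
      · obtain ⟨c', hc', rfl⟩ := Finset.mem_image.1 h
        have := t2 c' hc'
        unfold lf
        split_ifs <;> omega
    · intro c hc e he hce hq
      rcases Finset.mem_insert.1 hc with h | h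
      · subst h
        have h2 := (Tzero.inv hip hp hq).1 hmid
        exact hce (hmid' e h2).symm
      · obtain ⟨c', hc', rfl⟩ := Finset.mem_image.1 h
        rcases Finset.mem_insert.1 he with h' | h'
        · subst h'
          have h2 := (Tzero.inv hip hp hq).2 hmid
          exact hce (hmid' _ h2)
        · obtain ⟨e', he', rfl⟩ := Finset.mem_image.1 h'
          have h2 := fwd hip hp hq
          rw [dn_pt hip hp, dn_pt hip hp] at h2
          exact t3 c' hc' e' he' (fun h => hce (by rw [h])) h2

/-- the induction -/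
theorem main (k : ℕ) : ∀ (M p r : ℕ) (w' w : Word), p + r = 2 * k + 1 → Ok w' → Ok w →
    w.length = p + M → w'.length = r + M → WQ k (Pq p r w' w) := by
  induction k using Nat.strong_induction_on with
  | _ k ihk =>
  intro M
  induction M using Nat.strong_induction_on with
  | _ M ih =>
    have zc : ∀ (p r i : ℕ) (w' u : Word), i + 2 ≤ p → p + r = 2 * k + 1 → Ok w' → Ok u →
        u.length + 2 = p + M → w'.length = r + M → WQ k (Pq p r w' (lins i u)) := by
      intro p r i w' u hip hpr ow' ou hl hl'
      obtain ⟨k', rfl⟩ : ∃ k', k = k' + 1 := ⟨k - 1, by omega⟩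
      exact zeroc hip (by omega) hpr (by omega)
        (ihk k' (by omega) M (p - 2) r w' u (by omega) ow' ou (by omega) hl')
    have core : ∀ (p r : ℕ) (w' w : Word), 1 ≤ p → p + r = 2 * k + 1 → Ok w' → Ok w →
        w.length = p + M → w'.length = r + M → WQ k (Pq p r w' w) := by
      intro p r w' w hp hpr ow' ow hl hl'
      by_cases hw : w = bwm (p + M)
      · rcases Nat.eq_zero_or_pos M with rfl | hM
        · by_cases hw' : w' = bwm r
          · -- base
            have h1 := Pool.Agent.W801.OL.t_base p r (by rw [hpr]; exact ⟨k, rfl⟩)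
            have hg : Good p r (bwm r) (bwm p) := by
              unfold ee at h1
              by_contra h4
              rw [if_neg h4] at h1
              exact zero_ne_one h1
            rw [hw, hw', Nat.add_zero]
            unfold Pool.Agent.H160R2.ML.Good at hg
            rw [hpr] at hg
            exact WQ_of_GQ hg
          · obtain ⟨i, u, rfl, ou, hu, hi⟩ :=
              Pool.Agent.W808.HB.Tbs.exists_arc r w' (by omega) ow' hw'
            have h3 := zc r p i w u hi (by omega) ow ou (by omega) (by omega)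
            exact symm (by omega) (by rw [Tzero.len_lins]; omega)
              (by rw [Tzero.len_lins]; omega) h3
        · -- the arc of the seam
          obtain ⟨P, rfl⟩ : ∃ P, p = P + 1 := ⟨p - 1, by omega⟩
          obtain ⟨m, hm⟩ : ∃ m, P + 1 + M = m + 2 := ⟨P + M - 1, by omega⟩
          rw [hm, Pool.Agent.W801.OL.Tone.bwm_seam] at hw
          subst hw
          have hbl := Pool.Agent.W801.OL.Tone.bwm_length m
          have hL : w'.length + (P + 1) = (bwm m).length + 2 + r := by rw [hbl]; omega
          have hP : P ≤ (bwm m).length := by rw [hbl]; omega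
          refine WQ_congr (TmoveL.rho P r) (fun c => if c = P + r then 0 else c + 1)
            (fun c hc => ?_) (fun c hc => ?_) (fun c hc => ?_) (fun c hc => ?_) (Or.inl ?_)
            (fun s t c d hc hd => ?_)
            (ih (M - 1) (by omega) P (r + 1) (rotr w') (bwm m) (by omega) (ok_rotr.2 ow')
              (Pool.Agent.W801.OL.Tone.bwm_ok m) (by rw [hbl]; omega)
              (by rw [length_rotr]; omega))
          · have := TmoveL.rho_lt (P := P) (r := r) (c := c) (by omega)
            omega
          · split_ifs <;> omega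
          · unfold TmoveL.rho
            split_ifs <;> omega
          · unfold TmoveL.rho
            by_cases h0 : c = P + r
            · simp [h0]
            · simp [h0]
          · intro c hc
            have e1 : (TmoveL.rho P r c + 1) % (2 * k + 1) = c := by
              unfold TmoveL.rho
              split_ifs with h0
              · have : P + r + 1 = 2 * k + 1 := by omega
                rw [this, Nat.mod_self, h0]
              · have : c - 1 + 1 = c := by omega
                rw [this, Nat.mod_eq_of_lt hc]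
            rw [e1]
            rcases Nat.lt_or_ge (c + 1) (2 * k + 1) with h1 | h1
            · rw [Nat.mod_eq_of_lt h1]
              unfold TmoveL.rho
              rw [if_neg (by omega)]
              omega
            · have e : c + 1 = 2 * k + 1 := by omega
              rw [e, Nat.mod_self]
              unfold TmoveL.rho
              rw [if_pos rfl]
              omega
          · exact TmoveL.Cn_pt hL hP s t c d (by omega) (by omega)
      · obtain ⟨i, u, rfl, ou, hu, hi⟩ := Pool.Agent.W808.HB.Tbs.exists_arc (p + M) w hl ow hw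
        rcases Nat.lt_or_ge (i + 1) p with h1 | h1
        · exact zc p r i w' u (by omega) hpr ow' ou (by omega) hl'
        · rcases Nat.lt_or_ge i p with h2 | h2
          · -- moveR
            obtain rfl : p = i + 1 := by omega
            refine WQ_congr id id (fun c hc => hc) (fun c hc => hc) (fun c _ => rfl)
              (fun c _ => rfl) (Or.inl fun c _ => rfl) (fun s t c d hc hd => ?_)
              (ih (M - 1) (by omega) i (r + 1) w' u (by omega) ow' ou (by omega) (by omega))
            unfold Pq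
            rw [TmoveR.cn_iff (by omega), TmoveR.pt_eq (by omega), TmoveR.pt_eq (by omega)]
            rfl
          · -- insR
            have h3 := length_cap (i := i - p + r) (w := w') (by omega)
            have H : TinsR.HH p r i w' u (cap (i - p + r) w') (i - p + r) :=
              { ok := ow'
                l2 := h3.symm
                lv := by omega
                hv := rfl
                ii := by omega
                hp := h2
                hi := by omega }
            refine WQ_congr id id (fun c hc => hc) (fun c hc => hc) (fun c _ => rfl)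
              (fun c _ => rfl) (Or.inl fun c _ => rfl) (fun s t c d hc hd => ?_)
              (ih (M - 2) (by omega) p r (cap (i - p + r) w') u hpr (ok_cap ow' (by omega)) ou
                (by omega) (by omega))
            unfold Pq
            rw [H.cn_iff (H.ptt s c (by omega)).1 (H.ptt t d (by omega)).1,
              (H.ptt s c (by omega)).2, (H.ptt t d (by omega)).2]
            rfl
    intro p r w' w hpr ow' ow hl hl'
    rcases Nat.eq_zero_or_pos p with h | h
    · have := core r p w w' (by omega) (by omega) ow ow' hl' hl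
      exact symm (by omega) (by omega) (by omega) this
    · exact core p r w' w h hpr ow' ow hl hl'

end TWW

/-- **dichotomies for words** -/
theorem t_WW : S_WW := by
  intro k p r M w' w hpr ow' ow hl hl'
  exact TWW.main k M p r w' w hpr ow' ow hl hl'

end Pool.Agent.W801.OW
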