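import Pool.Agent.W808.KY.Stm
import Pool.Agent.W801.OU.T_ONI

/-!
# An odd number of legs: dichotomies and the law (definitions and steps)
(every step is a `Prop`; the file `T_X.lean` proves `t_X` from its hypotheses)
-/

set_option autoImplicit false

namespace Pool.Agent.W801.OW
open H974 H906.Cyl
open MeasureTheory
open Pool.Agent.H863R2.Cyl
open Pool.Agent.H988R2.Perc (Word)
open Pool.Agent.H160R2.ML (nm Good Cn pt)
open Pool.Agent.H160R2.MU (PC)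
open Pool.Agent.W801.OL (LegEv2 sec2 Lk2)
open Pool.Agent.W808.HB (Alt coinsH)
open Pool.Agent.W801.OU.TISO (Ri)
open Pool.Agent.W808.KY (Hn En scy RY Outy Sep Gy NAd Shy Ony)

/-! ## patterns: `Q s c t d` = the sector `c` of the slit `s` is connected to the sector `d` of the
slit `t` -/

/-- the sector `c` is connected to another slit -/
def OQ (l : ℕ) (Q : ℤ → ℕ → ℤ → ℕ → Prop) (c : ℕ) : Prop := ∃ s : ℤ, s ≠ 0 ∧ ∃ d : ℕ, d < l ∧ Q 0 c s d

/-- the leg event of a pattern -/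
def GQ (l : ℕ) (Q : ℤ → ℕ → ℤ → ℕ → Prop) : Prop :=
  (∀ c d : ℕ, c < l → d < l → c ≠ d → ¬ Q 0 c 0 d) ∧ ∀ c : ℕ, c < l → OQ l Q c

/-- the properties of the patterns with `2 k + 1` legs -/
structure WQ (k : ℕ) (Q : ℤ → ℕ → ℤ → ℕ → Prop) : Prop where
  w1 : (∀ c d : ℕ, c < 2 * k + 1 → d < 2 * k + 1 → c ≠ d → ¬ Q 0 c 0 d) → GQ (2 * k + 1) Q
  w2 : ∀ S : Finset ℕ, NAd k S → (∀ c ∈ S, OQ (2 * k + 1) Q c ∧
    ∀ d : ℕ, d < 2 * k + 1 → d ≠ c → ¬ Q 0 c 0 d) → GQ (2 * k + 1) Q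
  w4 : ∃ T : Finset ℕ, T.card = k + 1 ∧ (∀ c ∈ T, c < 2 * k + 1) ∧
    ∀ c ∈ T, ∀ d ∈ T, c ≠ d → ¬ Q 0 c 0 d

/-- **words** -/
def S_WW : Prop := ∀ (k p r M : ℕ) (w' w : Word), p + r = 2 * k + 1 → Ok w' → Ok w →
  w.length = p + M → w'.length = r + M →
  WQ k (fun s c t d => Cn p r w' w (pt p r w' w s c) (pt p r w' w t d))

/-- **coins with alternating rows in both halves** -/
def S_WC : Prop := ∀ (k p r M t t' : ℕ), p + r = 2 * k + 1 → 2 ≤ M → ∀ ω ω' : ℤ × ℕ → Bool,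
  Alt (p + M) ω t → Alt (r + M) ω' t' →
  WQ k (fun s c s' d => Relation.EqvGen (Lk2 p r M ω ω') (sec2 p r M s c) (sec2 p r M s' d))

/-- the configuration `G` (outside the holes) and the coins describe the same diagonals; the coins of
the `k` squares at the slit have the value `false` -/
structure CmpY (n k : ℕ) (G : Set Edg) (ω ω' : ℤ × ℕ → Bool) : Prop where
  lo : ∀ (j : ℤ) (t : ℕ), (ω (j % (2 * n : ℕ), t) = true ↔ ¬ Ri G (j - 1) t)
  up : ∀ (s j : ℤ) (t : ℕ), 0 ≤ j → j < 2 * n - 1 → (k ≤ j ∨ 1 ≤ t) →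
    (ω' (j, t) = true ↔ Ri G (2 * n * s + j) (-t - 1))
  tip : ∀ j : ℤ, 0 ≤ j → j < k → ω' (j, 0) = false

/-- **the two descriptions agree** -/
def S_ISY : Prop := ∀ (n k : ℕ) (G : Set Edg) (ω ω' : ℤ × ℕ → Bool), 1 ≤ k → 2 * k + 2 ≤ n →
  CmpY n k G ω ω' → ∀ (s t : ℤ) (c d : ℕ), c < 2 * k + 1 → d < 2 * k + 1 →
  (RY n k G (scy n k s c) (scy n k t d) ↔
    Relation.EqvGen (Lk2 (k + 1) k (2 * n - (k + 1)) ω ω') (sec2 (k + 1) k (2 * n - (k + 1)) s c)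
      (sec2 (k + 1) k (2 * n - (k + 1)) t d))

/-- the patterns of the configurations with alternating rows -/
def S_WY : Prop := ∀ (n k : ℕ) (G : Set Edg) (ω ω' : ℤ × ℕ → Bool) (t t' : ℕ), 1 ≤ k →
  2 * k + 2 ≤ n → CmpY n k G ω ω' → Alt (2 * n) ω t → Alt (2 * n - 1) ω' t' →
  WQ k (fun s c s' d => RY n k G (scy n k s c) (scy n k s' d))

/-- the patterns of the periodic configurations of a band -/
def S_WP : Prop := ∀ (n M k : ℕ), 1 ≤ k → 2 * k + 2 ≤ n → ∀ F : Finset Edg, F ⊆ CE n M →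
  WQ k (fun s c s' d => RY n k (per n F) (scy n k s c) (scy n k s' d))

/-- `k` clusters of the band imply the leg event of the infinite cylinder -/
def S_ONY : Prop := ∀ (n M k : ℕ), 1 ≤ k → 2 * k + 2 ≤ n →
  PC n M (fun F => Ony n k M (per n F)) ≤
    2 ^ k * (coinsH.prod coinsH).real {ω | LegEv2 (k + 1) k (2 * n - (k + 1)) ω.1 ω.2}

end Pool.Agent.W801.OW
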