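import Pool.Agent.W801.OW.Stm

/-! # Patterns of configurations with alternating rows -/

set_option autoImplicit false

namespace Pool.Agent.W801.OW
open H974 H906.Cyl
open Pool.Agent.W801.OL (LegEv2 sec2 Lk2)
open Pool.Agent.W808.HB (Alt)
open Pool.Agent.W801.OU.TISO (Ri cl cu cmp_per Ri_per per_edz dco_edz)
open Pool.Agent.W808.KY (Hn En scy RY Outy Sep Gy NAd)

namespace TWY

/-- the properties of the patterns depend only on the sectors `< 2 k + 1` -/
theorem WQ_congr {k : ℕ} {Q Q' : ℤ → ℕ → ℤ → ℕ → Prop}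
    (h : ∀ (s t : ℤ) (c d : ℕ), c < 2 * k + 1 → d < 2 * k + 1 → (Q' s c t d ↔ Q s c t d))
    (H : WQ k Q) : WQ k Q' := by
  have hO : ∀ c : ℕ, c < 2 * k + 1 → (OQ (2 * k + 1) Q' c ↔ OQ (2 * k + 1) Q c) := by
    intro c hc
    unfold OQ
    exact exists_congr fun s => and_congr_right fun _ => exists_congr fun d =>
      and_congr_right fun hd => h 0 s c d hc hd
  have hG : GQ (2 * k + 1) Q → GQ (2 * k + 1) Q' := by
    rintro ⟨h1, h2⟩
    exact ⟨fun c d hc hd hcd h3 => h1 c d hc hd hcd ((h 0 0 c d hc hd).1 h3),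
      fun c hc => (hO c hc).2 (h2 c hc)⟩
  refine ⟨fun h1 => ?_, fun S hS h1 => ?_, ?_⟩
  · exact hG (H.w1 fun c d hc hd hcd h2 => h1 c d hc hd hcd ((h 0 0 c d hc hd).2 h2))
  · refine hG (H.w2 S hS fun c hc => ?_)
    have hc' := hS.2.1 c hc
    exact ⟨(hO c hc').1 (h1 c hc).1, fun d hd hdc h2 =>
      (h1 c hc).2 d hd hdc ((h 0 0 c d hc' hd).2 h2)⟩
  · obtain ⟨T, hT1, hT2, hT3⟩ := H.w4
    exact ⟨T, hT1, hT2, fun c hc d hd hcd h2 =>
      hT3 c hc d hd hcd ((h 0 0 c d (hT2 c hc) (hT2 d hd)).1 h2)⟩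

open Classical in
/-- the coins of a configuration, with `k` coins at the tip -/
noncomputable def ck (k : ℕ) (G : Set Edg) : ℤ × ℕ → Bool := fun x =>
  if x.2 = 0 ∧ 0 ≤ x.1 ∧ x.1 < k then false else cu G x

theorem cmpY_per {n k : ℕ} (hn : 1 ≤ n) (F : Finset Edg) :
    CmpY n k (per n F) (cl (per n F)) (ck k (per n F)) := by
  have h := cmp_per hn F
  refine ⟨h.lo, fun s j t hj hj2 hk => ?_, fun j hj hjk => ?_⟩
  · unfold ck
    simp only
    rw [if_neg]
    · exact h.up s j t hj hj2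
    · rintro ⟨h1, h2, h3⟩
      omega
  · unfold ck
    simp [hj, hjk]

end TWY

open TWY

/-- **patterns of configurations with alternating rows** -/
theorem t_WY : S_WC → S_ISY → S_WY := by
  intro hWC hISY n k G ω ω' t t' hk hn hcmp hA hA'
  have h1 := hWC k (k + 1) k (2 * n - (k + 1)) t t' (by omega) (by omega) ω ω'
    (by rw [show k + 1 + (2 * n - (k + 1)) = 2 * n by omega]; exact hA)
    (by rw [show k + (2 * n - (k + 1)) = 2 * n - 1 by omega]; exact hA')
  exact WQ_congr (fun s t c d hc hd => hISY n k G ω ω' hk hn hcmp s t c d hc hd) h1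

/-- **patterns of the periodic configurations of a band** -/
theorem t_WP : S_WY → S_WP := by
  intro hWY n M k hk hn F hF
  have hout : ∀ s d : ℤ, (d < -M ∨ (M : ℤ) ≤ d) → edz s d ∉ per n F := by
    intro s d hd h
    rw [per_edz] at h
    have h2 := (mem_CE.1 (hF h)).2
    rw [dco_edz] at h2
    omega
  refine hWY n k (per n F) _ _ (2 * M) (2 * M + 1) hk hn (cmpY_per (by omega) F) ?_ ?_
  · intro j hj
    unfold cl Ri
    have h1 := hout ((j : ℤ) - 1) ((2 * M : ℕ) : ℤ) (Or.inr (by push_cast; omega))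
    have h2 : (((j : ℤ) - 1 + ((2 * M : ℕ) : ℤ)) % 2 = 0) ↔ j % 2 = 1 := by push_cast; omega
    simp only [h1, h2]
    by_cases h : j % 2 = 1 <;> simp [h]
  · intro j hj
    unfold ck
    simp only
    rw [if_neg (by rintro ⟨h0, -, -⟩; omega)]
    unfold cu Ri
    have h1 := hout (j : ℤ) (-((2 * M + 1 : ℕ) : ℤ) - 1) (Or.inl (by push_cast; omega))
    have h2 : (((j : ℤ) + (-((2 * M + 1 : ℕ) : ℤ) - 1)) % 2 = 0) ↔ ¬ j % 2 = 1 := by
      push_cast; omega
    simp only [h1, h2]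
    by_cases h : j % 2 = 1 <;> simp [h]

/-- pairwise not connected sectors are connected to other tips -/
theorem t_W1 : S_WP → Pool.Agent.W808.KY.S_W1 := by
  intro hWP n M k hk hn F hF h
  have H := (hWP n M k hk hn F hF).w1 fun c d hc hd hcd => h c hc d hd hcd.symm
  exact fun c hc => ⟨h c hc, H.2 c hc⟩

/-- `k` non adjacent sectors are enough -/
theorem t_W2 : S_WP → Pool.Agent.W808.KY.S_W2 := by
  intro hWP n M k hk hn F hF S hS h
  have H := (hWP n M k hk hn F hF).w2 S hS fun c hc => ⟨(h c hc).1, (h c hc).2⟩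
  exact fun c hc => ⟨fun d hd hdc => H.1 c d hc hd hdc.symm, H.2 c hc⟩

/-- there are always `k + 1` pairwise not connected sectors -/
theorem t_W4 : S_WP → Pool.Agent.W808.KY.S_W4 := by
  intro hWP n M k hk hn F hF
  exact (hWP n M k hk hn F hF).w4

end Pool.Agent.W801.OW
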